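import Pool.Agent.Lib.MP_f05b2f_co.L2.Kern

/-!
The numbers of slices above a level, and the columns of width one block: a bad column.
-/

namespace DKWF

open Finset

/-- the number of slices `z < k` with `c < f z` -/
def cnt (k : ℕ) (f : ℕ → ℕ) (c : ℕ) : ℕ := ∑ z ∈ range k, if c < f z then 1 else 0

theorem seg_exists (k : ℕ) {P : ℕ → Prop} (h : ∀ z z', z ≤ z' → P z' → P z) :
    ∃ m ≤ k, ∀ z < k, (z < m ↔ P z) := by
  induction k with
  | zero => exact ⟨0, le_rfl, fun z hz => by omega⟩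
  | succ k ih =>
    obtain ⟨m, hm, h1⟩ := ih
    by_cases hP : P k
    · refine ⟨k + 1, le_rfl, fun z hz => ⟨fun _ => h z k (by omega) hP, fun _ => hz⟩⟩
    · refine ⟨m, by omega, fun z hz => ?_⟩
      rcases Nat.lt_or_ge z k with h2 | h2
      · exact h1 z h2
      · have : z = k := by omega
        subst this
        exact ⟨fun h3 => by omega, fun h3 => absurd h3 hP⟩

theorem sum_seg {k m : ℕ} (hm : m ≤ k) {P : ℕ → Prop} [DecidablePred P]
    (h : ∀ z < k, (z < m ↔ P z)) : ∑ z ∈ range k, (if P z then 1 else 0) = m := by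
  have h1 : ∑ z ∈ range k, (if P z then 1 else 0) = ∑ z ∈ range k, (if z < m then 1 else 0) := by
    apply sum_congr rfl
    intro z hz
    have h2 := h z (mem_range.1 hz)
    by_cases h3 : z < m
    · rw [if_pos h3, if_pos (h2.1 h3)]
    · rw [if_neg h3, if_neg (fun h4 => h3 (h2.2 h4))]
  rw [h1]
  obtain ⟨d, rfl⟩ := Nat.exists_eq_add_of_le hm
  rw [sum_range_add, sum_congr rfl (fun z hz => if_pos (mem_range.1 hz)),
    sum_congr rfl (fun z _ => if_neg (by omega : ¬ m + z < m))]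
  simp

theorem cnt_spec {k : ℕ} {f : ℕ → ℕ} (hf : Antitone f) (c : ℕ) :
    cnt k f c ≤ k ∧ ∀ z < k, (z < cnt k f c ↔ c < f z) := by
  obtain ⟨m, hm, h⟩ := seg_exists k (P := fun z => c < f z)
    (fun z z' hz h1 => lt_of_lt_of_le h1 (hf hz))
  have e : cnt k f c = m := sum_seg hm h
  rw [e]
  exact ⟨hm, h⟩

theorem cnt_le {k : ℕ} {f : ℕ → ℕ} (hf : Antitone f) (c : ℕ) : cnt k f c ≤ k := (cnt_spec hf c).1

theorem cnt_pos {k : ℕ} {f : ℕ → ℕ} (hf : Antitone f) {c z : ℕ} (h : z < cnt k f c) : c < f z := by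
  have h1 := cnt_spec (k := k) hf c
  exact (h1.2 z (by omega)).1 h

theorem cnt_neg {k : ℕ} {f : ℕ → ℕ} (hf : Antitone f) {c z : ℕ} (hz : z < k)
    (h : cnt k f c ≤ z) : f z ≤ c := by
  have h1 := (cnt_spec (k := k) hf c).2 z hz
  by_contra h2
  have := h1.2 (by omega)
  omega

theorem le_cnt {k : ℕ} {f : ℕ → ℕ} (hf : Antitone f) {c m : ℕ} (hm : m ≤ k)
    (h : ∀ z < m, c < f z) : m ≤ cnt k f c := by
  by_contra hcon
  have h1 := (cnt_spec (k := k) hf c).2 (cnt k f c) (by omega)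
  have h2 := h1.2 (h _ (by omega))
  omega

theorem cnt_le_of {k : ℕ} {f : ℕ → ℕ} (hf : Antitone f) {c m : ℕ}
    (h : ∀ z < k, m ≤ z → f z ≤ c) : cnt k f c ≤ m := by
  by_contra hcon
  have h0 := cnt_le (k := k) hf c
  have h1 := cnt_pos (k := k) hf (c := c) (z := m) (by omega)
  have h2 := h m (by omega) le_rfl
  omega

theorem cnt_anti {k : ℕ} {f : ℕ → ℕ} (hf : Antitone f) {c d : ℕ} (h : c ≤ d) :
    cnt k f d ≤ cnt k f c := by
  apply cnt_le_of hf
  intro z hz h1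
  have := cnt_neg hf hz h1
  omega

theorem sum_min_cnt {k : ℕ} {f g : ℕ → ℕ} (hf : Antitone f) (hg : Antitone g) (c d : ℕ) :
    ∑ z ∈ range k, (if c < f z ∧ d < g z then 1 else 0) = min (cnt k f c) (cnt k g d) := by
  have h1 := cnt_spec (k := k) hf c
  have h2 := cnt_spec (k := k) hg d
  apply sum_seg (by omega)
  intro z hz
  rw [← h1.2 z hz, ← h2.2 z hz]
  omega

/-- the height of a column -/
theorem ceil_two {U y ρ : ℕ} (hU : 0 < U) (hy : y ≤ 2 * U) (hρ : ρ < U) :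
    (y + (U - 1 - ρ)) / U = (if ρ < y then 1 else 0) + (if ρ + U < y then 1 else 0) := by
  split_ifs with h1 h2 h2
  · rw [Nat.div_eq_iff hU]; omega
  · rw [Nat.div_eq_iff hU]; omega
  · omega
  · rw [Nat.div_eq_of_lt (by omega)]

theorem clip_two (y x : ℕ) :
    min (y - x * 2) 2 = (if 2 * x < y then 1 else 0) + (if 2 * x + 1 < y then 1 else 0) := by
  split_ifs <;> omega

/-- the sums of a column -/
theorem col_sums {k n ρ : ℕ} {a b : ℕ → ℕ} (ha : Antitone a) (hb : Antitone b)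
    (hbN : ∀ z, b z ≤ 2 ^ (n + 1)) (hρ : ρ < 2 ^ n) (x : ℕ) :
    ∑ z ∈ range k, min (a z - x * 2) 2 = cnt k a (2 * x) + cnt k a (2 * x + 1) ∧
    ∑ z ∈ range k, (b z + (2 ^ n - 1 - ρ)) / 2 ^ n = cnt k b ρ + cnt k b (ρ + 2 ^ n) ∧
    ∑ z ∈ range k, min (min (a z - x * 2) 2) ((b z + (2 ^ n - 1 - ρ)) / 2 ^ n) =
      min (cnt k a (2 * x)) (cnt k b ρ) + min (cnt k a (2 * x + 1)) (cnt k b (ρ + 2 ^ n)) := by
  have hU := Nat.two_pow_pos n
  have hN : 2 ^ (n + 1) = 2 * 2 ^ n := by rw [pow_succ]; ring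
  have e1 : ∀ z, (b z + (2 ^ n - 1 - ρ)) / 2 ^ n =
      (if ρ < b z then 1 else 0) + (if ρ + 2 ^ n < b z then 1 else 0) := fun z =>
    ceil_two hU (by have := hbN z; omega) hρ
  refine ⟨?_, ?_, ?_⟩
  · rw [sum_congr rfl (fun z _ => clip_two (a z) x), sum_add_distrib]
    rfl
  · rw [sum_congr rfl (fun z _ => e1 z), sum_add_distrib]
    rfl
  · rw [← sum_min_cnt ha hb, ← sum_min_cnt ha hb, ← sum_add_distrib]
    apply sum_congr rfl
    intro z _
    rw [e1, clip_two]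
    split_ifs <;> omega

theorem Ph_two (S : ℕ) : Ph 2 1 S = (S + 1) / 2 := tw_half 0 S

/-- the bounds for the value of a column -/
theorem kf_two {k S B : ℕ} (hk : 0 < k) (hS : S ≤ k * 2) (hB : B ≤ k * 2) :
    H [k, 2] S B ≤ S ∧ H [k, 2] S B ≤ B ∧ (B ≤ k → H [k, 2] S B ≤ (S + 1) / 2) ∧
      (k ≤ B → H [k, 2] S B + k ≤ (S + 1) / 2 + B) := by
  have h2 : 0 < 2 := two_pos
  refine ⟨H_le_left (pos_two hk h2) S (by simpa using hB), H_le_right _ _ _, ?_, ?_⟩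
  · intro h
    have := kf_le_row hk h2 (e := 1) (by omega) hS (by omega : B ≤ k * 1)
    rwa [Ph_two] at this
  · intro h
    have := kf_le_row' hk h2 (e := 1) (by omega) hS (by omega : k * 1 ≤ B)
    rw [Ph_two] at this
    omega

/-- a bad column -/
theorem bad2 {k n ρ : ℕ} (hk : 0 < k) {a b : ℕ → ℕ} (ha : Antitone a) (hb : Antitone b)
    (hbN : ∀ z, b z ≤ 2 ^ (n + 1)) (hρ : ρ < 2 ^ n) (x : ℕ)
    (h : ∑ z ∈ range k, min (min (a z - x * 2) 2) ((b z + (2 ^ n - 1 - ρ)) / 2 ^ n) <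
      H [k, 2] (∑ z ∈ range k, min (a z - x * 2) 2)
        (∑ z ∈ range k, (b z + (2 ^ n - 1 - ρ)) / 2 ^ n)) :
    cnt k a (2 * x + 1) < cnt k b (ρ + 2 ^ n) ∧ cnt k b ρ < cnt k a (2 * x) ∧
      (cnt k a (2 * x + 1) + 2 * k + 1 ≤ 2 * cnt k b (ρ + 2 ^ n) + cnt k a (2 * x) ∨
        2 * cnt k b ρ + cnt k a (2 * x + 1) + 1 ≤ cnt k a (2 * x)) := by
  obtain ⟨e1, e2, e3⟩ := col_sums (k := k) ha hb hbN hρ x
  rw [e1, e2, e3] at h
  have c1 := cnt_le (k := k) ha (2 * x)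
  have c2 := cnt_anti (k := k) ha (show 2 * x ≤ 2 * x + 1 by omega)
  have c3 := cnt_le (k := k) hb ρ
  have c4 := cnt_anti (k := k) hb (show ρ ≤ ρ + 2 ^ n by omega)
  obtain ⟨f1, f2, f3, f4⟩ := kf_two (k := k) (S := cnt k a (2 * x) + cnt k a (2 * x + 1))
    (B := cnt k b ρ + cnt k b (ρ + 2 ^ n)) hk (by omega) (by omega)
  generalize cnt k a (2 * x + 1) = i at *
  generalize cnt k a (2 * x) = e at *
  generalize cnt k b (ρ + 2 ^ n) = q1 at *
  generalize cnt k b ρ = q2 at *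
  generalize H [k, 2] (e + i) (q2 + q1) = X at *
  omega

end DKWF
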