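import Pool.Agent.Lib.MP_f05b2f_co.D.Sml
import Pool.Agent.Lib.MP_f05b2f_co.C.Kf

/-!
All sides equal to two.  Basic values and bounds of `H (tw n)`, `tw n` the list of `n` twos.
-/

namespace DKWF

open Finset

/-- `n` sides equal to `2` -/
def tw (n : ℕ) : List ℕ := List.replicate n 2

theorem tw_pos (n : ℕ) : Pos (tw n) := by
  intro x hx
  rw [List.eq_of_mem_replicate hx]
  exact two_pos

theorem tw_prod (n : ℕ) : (tw n).prod = 2 ^ n := by
  rw [tw, List.prod_replicate]

theorem tw_reverse (n : ℕ) : (tw n).reverse = tw n := List.reverse_replicate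

theorem tw_snoc (n : ℕ) : tw (n + 1) = tw n ++ [2] := List.replicate_succ'

theorem tw_cons (n : ℕ) : tw (n + 1) = 2 :: tw n := List.replicate_succ

theorem tw_add (m n : ℕ) : tw (m + n) = tw m ++ tw n := by
  rw [tw, tw, tw, List.replicate_append_replicate]

theorem tw_lt (n t : ℕ) : lam (tw n) t < 2 ^ n := by
  have := lam_lt (tw_pos n) t
  rwa [tw_prod] at this

theorem tw_invol {n t : ℕ} (ht : t < 2 ^ n) : lam (tw n) (lam (tw n) t) = t := by
  have := lam_reverse (tw_pos n) (t := t) (by rw [tw_prod]; exact ht)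
  rwa [tw_reverse] at this

theorem tw_compl {n t : ℕ} (ht : t < 2 ^ n) : lam (tw n) (2 ^ n - 1 - t) + lam (tw n) t + 1 = 2 ^ n := by
  have := lam_compl (tw_pos n) (c := 1) (t := t) (by rw [tw_prod]; omega)
  rwa [tw_prod, one_mul] at this

theorem tw_comm {n a b : ℕ} (ha : a ≤ 2 ^ n) (hb : b ≤ 2 ^ n) :
    H (tw n) a b = H (tw n) b a := by
  have := H_comm (tw_pos n) (a := a) (b := b) (by rw [tw_prod]; exact ha) (by rw [tw_prod]; exact hb)
  rwa [tw_reverse] at this

theorem tw_full {n : ℕ} (b : ℕ) : H (tw n) (2 ^ n) b = b :=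
  H_full (tw_pos n) (by rw [tw_prod]) b

theorem tw_full' {n a : ℕ} (ha : a ≤ 2 ^ n) : H (tw n) a (2 ^ n) = a := by
  rw [tw_comm ha le_rfl, tw_full]

theorem tw_succ_left {n a b : ℕ} (ha : a < 2 ^ n) (hb : b ≤ 2 ^ n) :
    H (tw n) (a + 1) b = H (tw n) a b + if lam (tw n) a < b then 1 else 0 := by
  rw [tw_comm ha hb, H_succ, tw_comm hb ha.le]

theorem tw_le_left {n a b : ℕ} (hb : b ≤ 2 ^ n) : H (tw n) a b ≤ a :=
  H_le_left (tw_pos n) a (by rw [tw_prod]; exact hb)

theorem tw_period {n a : ℕ} (ha : a ≤ 2 ^ n) (c b : ℕ) :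
    H (tw n) a (c * 2 ^ n + b) = c * a + H (tw n) a b := by
  have := H_period (tw_pos n) (a := a) (by rw [tw_prod]; exact ha) c b
  rwa [tw_prod] at this

theorem H_mul_le {ls : List ℕ} (h : Pos ls) (a b : ℕ) (c : ℕ) : H ls a (c * b) ≤ c * H ls a b := by
  induction c with
  | zero => simp [H_zero_right]
  | succ c ih =>
    rw [Nat.succ_mul, Nat.succ_mul]
    exact (H_subadd h a (c * b) b).trans (Nat.add_le_add_right ih _)

/-- the number of common elements is at least the proportional share -/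
theorem tw_prop {n a : ℕ} (ha : a ≤ 2 ^ n) (b : ℕ) : a * b ≤ 2 ^ n * H (tw n) a b := by
  have h1 := H_mul_le (tw_pos n) a b (2 ^ n)
  have h2 := tw_period ha b 0
  rw [H_zero_right, add_zero, add_zero, mul_comm b (2 ^ n)] at h2
  rw [h2, mul_comm] at h1
  exact h1

theorem tw_compl_H {n a b : ℕ} (ha : a ≤ 2 ^ n) (hb : b ≤ 2 ^ n) :
    H (tw n) (2 ^ n - a) (2 ^ n - b) + a + b = 2 ^ n + H (tw n) a b := by
  have := H_compl (tw_pos n) (c := 1) (n := a) (b := b) (by rw [tw_prod]; exact ha)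
    (by rw [tw_prod, one_mul]; exact hb)
  rwa [tw_prod, one_mul, one_mul] at this

theorem tw_sum_le {n : ℕ} (a : ℕ) (f : ℕ → ℕ) (k : ℕ) :
    H (tw n) a (∑ z ∈ range k, f z) ≤ ∑ z ∈ range k, H (tw n) a (f z) := by
  induction k with
  | zero => simp [H_zero_right]
  | succ k ih =>
    rw [sum_range_succ, sum_range_succ]
    exact (H_subadd (tw_pos n) _ _ _).trans (Nat.add_le_add_right ih _)

/-- the last element of the second order is the last of the first -/
theorem tw_last (n : ℕ) : lam (tw n) (2 ^ n - 1) = 2 ^ n - 1 := by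
  have h1 := Nat.two_pow_pos n
  have h2 := tw_compl (n := n) (t := 0) h1
  have h3 := tw_compl (n := n) (t := 2 ^ n - 1) (by omega)
  have e : 2 ^ n - 1 - (2 ^ n - 1) = 0 := by omega
  rw [e] at h3
  have h4 : lam (tw n) 0 = 0 := by
    clear h1 h2 h3 e
    induction n with
    | zero => rfl
    | succ n ih => rw [tw_cons, lam, ih]; simp
  omega

theorem tw_zero (n : ℕ) : lam (tw n) 0 = 0 := by
  induction n with
  | zero => rfl
  | succ n ih => rw [tw_cons, lam, ih]; simp

/-- even numbers have rank in the lower half -/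
theorem tw_even {n t : ℕ} (ht : t % 2 = 0) : lam (tw (n + 1)) t < 2 ^ n := by
  rw [tw_cons, lam, ht]
  simpa using tw_lt n _

theorem tw_odd {n t : ℕ} (ht : t % 2 = 1) : 2 ^ n ≤ lam (tw (n + 1)) t := by
  rw [tw_cons, lam, ht, tw_prod]
  omega

/-- the last but one element -/
theorem tw_last2 (n : ℕ) : lam (tw (n + 1)) (2 ^ (n + 1) - 2) = 2 ^ n - 1 := by
  have h1 := Nat.two_pow_pos n
  have e : 2 ^ (n + 1) - 2 = 2 * (2 ^ n - 1) := by rw [pow_succ]; omega
  rw [tw_cons, lam, e]
  rw [Nat.mul_mod_right, zero_mul, zero_add, Nat.mul_div_cancel_left _ two_pos, tw_last]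

/-- values below the last level -/
theorem tw_pred {n a : ℕ} (ha : a < 2 ^ n) : H (tw n) a (2 ^ n - 1) = a := by
  have h1 : 2 ^ n - 1 + 1 = 2 ^ n := by omega
  have h2 := H_succ (tw n) a (2 ^ n - 1)
  rw [h1, tw_full' ha.le, tw_last, if_neg (by omega)] at h2
  omega

theorem tw_half_pred2 (n : ℕ) : H (tw (n + 1)) (2 ^ n) (2 ^ (n + 1) - 2) = 2 ^ n - 1 := by
  have h0 := Nat.two_pow_pos n
  have h3 : 2 ^ (n + 1) = 2 * 2 ^ n := by rw [pow_succ]; ring
  have h1 : 2 ^ (n + 1) - 2 + 1 = 2 ^ (n + 1) - 1 := by omega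
  have h2 := H_succ (tw (n + 1)) (2 ^ n) (2 ^ (n + 1) - 2)
  rw [h1, tw_pred (by omega), tw_last2, if_pos (by omega)] at h2
  omega

/-- the number of even numbers -/
theorem tw_half (n R : ℕ) : H (tw (n + 1)) (2 ^ n) R = (R + 1) / 2 := by
  induction R with
  | zero => simp [H_zero_right]
  | succ R ih =>
    rw [H_succ, ih]
    rcases Nat.mod_two_eq_zero_or_one R with h | h
    · rw [if_pos (tw_even h)]; omega
    · rw [if_neg (by have := tw_odd (n := n) h; omega)]; omega

/-- upper bound for the number of common elements: `N * H (N - c) R < (N - c) * R + N * ⌈c / 2⌉` -/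
theorem lemE (p : ℕ) {c : ℕ} (hc : 1 ≤ c) (hcN : c ≤ 2 ^ (p + 1)) (R : ℕ) :
    2 ^ (p + 1) * H (tw (p + 1)) (2 ^ (p + 1) - c) R <
      (2 ^ (p + 1) - c) * R + 2 ^ (p + 1) * ((c + 1) / 2) := by
  obtain ⟨V, hV⟩ : ∃ V, 2 ^ p = V := ⟨_, rfl⟩
  have hV0 : 0 < V := hV ▸ Nat.two_pow_pos p
  have hN : 2 ^ (p + 1) = 2 * V := by rw [pow_succ, hV]; ring
  obtain ⟨Q, w, hw, hR⟩ : ∃ Q w, w < 2 * V ∧ R = Q * (2 * V) + w :=
    ⟨R / (2 * V), R % (2 * V), Nat.mod_lt _ (by omega), (Nat.div_add_mod' R _).symm⟩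
  have e1 : H (tw (p + 1)) (2 ^ (p + 1) - c) R =
      Q * (2 * V - c) + H (tw (p + 1)) (2 * V - c) w := by
    have := tw_period (n := p + 1) (a := 2 ^ (p + 1) - c) (Nat.sub_le _ _) Q w
    rw [hR, ← hN, this]
  obtain ⟨ε, w', hε, hw', hww⟩ : ∃ ε w', ε ≤ 1 ∧ w' < V ∧ w = ε * V + w' := by
    refine ⟨w / V, w % V, ?_, Nat.mod_lt _ hV0, (Nat.div_add_mod' w _).symm⟩
    have : w / V < 2 := by rw [Nat.div_lt_iff_lt_mul hV0]; exact hw
    omega
  have hc2 : c / 2 ≤ V := by omega
  have e2 : H (tw (p + 1)) (2 * V - c) w ≤ ε * (V - c / 2) + min (V - c / 2) w' := by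
    have h1 : H (tw (p + 1)) (2 * V - c) w ≤ H (tw (p + 1)) (2 * (V - c / 2)) w :=
      H_mono_left _ (by omega) _
    rw [tw_snoc p, H_snoc two_pos] at h1
    rw [← tw_snoc p] at h1
    have h2 := tw_period (n := p) (a := V - c / 2) (by omega) ε w'
    rw [hV, ← hww] at h2
    have h3 := H_le_right (tw p) (V - c / 2) w'
    have h4 := tw_le_left (n := p) (a := V - c / 2) (b := w') (by omega)
    omega
  rw [e1, hN]
  obtain ⟨x, hx⟩ : ∃ x, H (tw (p + 1)) (2 * V - c) w = x := ⟨_, rfl⟩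
  rw [hx] at e2 ⊢
  -- numbers
  have key : 2 * V * x < (2 * V - c) * w + 2 * V * ((c + 1) / 2) := by
    have hx2 : 2 * V * x ≤ 2 * V * (ε * (V - c / 2) + min (V - c / 2) w') :=
      Nat.mul_le_mul_left _ e2
    refine lt_of_le_of_lt hx2 ?_
    rcases Nat.even_or_odd' c with ⟨c', hc' | hc'⟩
    · -- even
      have f1 : c / 2 = c' := by omega
      have f2 : (c + 1) / 2 = c' := by omega
      rw [f1, f2]
      obtain ⟨q, hq⟩ : ∃ q, V = c' + q := Nat.exists_eq_add_of_le (by omega)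
      have f3 : V - c' = q := by omega
      have f4 : 2 * V - c = 2 * q := by omega
      rw [f3, f4, hww]
      have hc1 : 1 ≤ c' := by omega
      rcases le_total w' q with h1 | h1
      · rw [min_eq_right h1]
        have g1 : c' * w' < V * c' := by
          rw [mul_comm V c']
          exact Nat.mul_lt_mul_of_pos_left hw' hc1
        rw [hq] at g1 ⊢
        nlinarith
      · rw [min_eq_left h1]
        obtain ⟨y, hy⟩ := Nat.exists_eq_add_of_le h1
        -- 2V(εq + q) < 2q(εV + w') + 2Vc'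
        have g1 : q * V < q * w' + V * c' := by
          have : q * V = q * c' + q * q := by rw [hq]; ring
          have g2 : q * q ≤ q * w' := Nat.mul_le_mul_left _ h1
          have g3 : q * c' < V * c' := Nat.mul_lt_mul_of_pos_right (by omega) hc1
          omega
        have g4 : 2 * V * (ε * q + q) = 2 * (q * V) + 2 * q * (ε * V) := by ring
        have g5 : 2 * q * (ε * V + w') + 2 * V * c' = 2 * q * (ε * V) + 2 * (q * w' + V * c') := by
          ring
        omega
    · -- odd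
      have f1 : c / 2 = c' := by omega
      have f2 : (c + 1) / 2 = c' + 1 := by omega
      rw [f1, f2]
      obtain ⟨q, hq⟩ : ∃ q, V = c' + q := Nat.exists_eq_add_of_le (by omega)
      have f3 : V - c' = q := by omega
      have hq1 : 1 ≤ q := by omega
      obtain ⟨q', rfl⟩ : ∃ q', q = q' + 1 := ⟨q - 1, by omega⟩
      have f4 : 2 * V - c = 2 * q' + 1 := by omega
      rw [f3, f4, hww]
      have hεV : ε * V ≤ V := by
        calc ε * V ≤ 1 * V := Nat.mul_le_mul_right _ hε
          _ = V := one_mul V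
      -- 2V(ε(q'+1) + min) < (2q'+1)(εV + w') + 2V(c'+1)
      have g4 : 2 * V * (ε * (q' + 1) + min (q' + 1) w') =
          (2 * q' + 1) * (ε * V) + ε * V + 2 * V * min (q' + 1) w' := by ring
      have g5 : (2 * q' + 1) * (ε * V + w') + 2 * V * (c' + 1) =
          (2 * q' + 1) * (ε * V) + ((2 * q' + 1) * w' + 2 * V * (c' + 1)) := by ring
      rw [g4, g5]
      have g6 : V + 2 * V * min (q' + 1) w' < (2 * q' + 1) * w' + 2 * V * (c' + 1) := by
        rcases le_total w' (q' + 1) with h1 | h1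
        · rw [min_eq_right h1]
          have g1 : (2 * c' + 1) * (w' + 1) ≤ (2 * c' + 1) * V := Nat.mul_le_mul_left _ hw'
          have g2 : 2 * V * w' = (2 * q' + 1) * w' + (2 * c' + 1) * w' := by rw [hq]; ring
          have g3 : 2 * V * (c' + 1) = V + (2 * c' + 1) * V := by ring
          have g7 : (2 * c' + 1) * (w' + 1) = (2 * c' + 1) * w' + (2 * c' + 1) := by ring
          omega
        · rw [min_eq_left h1]
          have g1 : (q' + 1) * (q' + 1) ≤ (q' + 1) * w' := Nat.mul_le_mul_left _ h1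
          have g2 : 2 * V * (q' + 1) = 2 * (c' * (q' + 1)) + 2 * ((q' + 1) * (q' + 1)) := by
            rw [hq]; ring
          have g3 : (2 * q' + 1) * w' + w' = 2 * ((q' + 1) * w') := by ring
          have g8 : c' * (q' + 1) ≤ c' * V := Nat.mul_le_mul_left _ (by omega)
          have g9 : 2 * V * (c' + 1) = 2 * (c' * V) + 2 * V := by ring
          omega
      omega
  have e5 : 2 * V * (Q * (2 * V - c) + x) = 2 * V * Q * (2 * V - c) + 2 * V * x := by ring
  have e6 : (2 * V - c) * R = 2 * V * Q * (2 * V - c) + (2 * V - c) * w := by rw [hR]; ring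
  rw [e5, e6]
  omega

end DKWF
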