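import Pool.Agent.Lib.MP_f05b2f_co.L2.Cnt

/-!
The excess of the bad column is compensated by another column.
-/

namespace DKWF

open Finset

theorem col_swap {k n ρ ρc i e q1 q2 g : ℕ} (hk : 0 < k) (F : FSL k (tw n)) {a b : ℕ → ℕ}
    (ha : Antitone a) (hb : Antitone b) (haN : ∀ z, a z ≤ 2 ^ (n + 1))
    (hbN : ∀ z, b z ≤ 2 ^ (n + 1)) (hρ : ρ < 2 ^ n) (hρc : ρc < 2 ^ n) (hne : ρc ≠ ρ)
    (hi : cnt k a (2 * lam (tw n) ρ + 1) = i) (he : cnt k a (2 * lam (tw n) ρ) = e)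
    (hq1 : cnt k b (ρ + 2 ^ n) = q1) (hq2 : cnt k b ρ = q2) (h1 : i < q1) (h2 : q2 < e)
    (hc1 : cnt k a (2 * lam (tw n) ρc) = i) (hc2 : cnt k a (2 * lam (tw n) ρc + 1) = i)
    (hc3 : i ≤ cnt k b ρc) (hc4 : cnt k b ρc ≤ q2) (hg : cnt k b (ρc + 2 ^ n) = g)
    (hgi : g + e ≤ i + k) (hu : e ≤ q2 + g) (hui : e ≤ q2 + i) : FS k (tw (n + 1)) a b := by
  have hp : (tw n).prod = 2 ^ n := tw_prod n
  have hek : e ≤ k := he ▸ cnt_le ha _
  have hq12 : q1 ≤ q2 := by
    rw [← hq1, ← hq2]; exact cnt_anti hb (by omega)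
  have hq2k : q2 ≤ k := hq2 ▸ cnt_le hb _
  have hU := Nat.two_pow_pos n
  rw [tw_snoc]
  refine FS.of_sum hk two_pos (tw_pos n) F (fun z => ?_) (fun z => ?_) ?_
  · rw [← tw_snoc, tw_prod]; exact haN z
  · rw [← tw_snoc, tw_prod]; exact hbN z
  rw [hp]
  have key : ∀ r ∈ range (2 ^ n), H [k, 2] (∑ z ∈ range k, min (a z - lam (tw n) r * 2) 2)
        (∑ z ∈ range k, (b z + (2 ^ n - 1 - r)) / 2 ^ n) + (if r = ρc then e - q2 else 0) ≤
      ∑ z ∈ range k, min (min (a z - lam (tw n) r * 2) 2) ((b z + (2 ^ n - 1 - r)) / 2 ^ n) +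
        (if r = ρ then e - q2 else 0) := by
    intro r hr
    rw [mem_range] at hr
    obtain ⟨s1, s2, s3⟩ := col_sums (k := k) ha hb hbN hr (lam (tw n) r)
    by_cases hrρ : r = ρ
    · subst hrρ
      rw [if_pos rfl, if_neg (Ne.symm hne), s1, s2, s3, hi, he, hq1, hq2]
      obtain ⟨f1, f2, f3, f4⟩ := kf_two (k := k) (S := e + i) (B := q2 + q1) hk (by omega)
        (by omega)
      omega
    rw [if_neg hrρ]
    by_cases hrc : r = ρc
    · subst hrc
      rw [if_pos rfl, s1, s2, s3, hc1, hc2, hg]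
      have c5 := cnt_anti (k := k) hb (show r ≤ r + 2 ^ n by omega)
      rw [hg] at c5
      obtain ⟨f1, f2, f3, f4⟩ := kf_two (k := k) (S := i + i) (B := cnt k b r + g) hk (by omega)
        (by omega)
      omega
    rw [if_neg hrc, add_zero, add_zero]
    by_contra hcon
    rw [not_le] at hcon
    obtain ⟨b1, b2, _⟩ := bad2 hk ha hb hbN hr _ hcon
    have hx : lam (tw n) r ≠ lam (tw n) ρ := fun h3 =>
      hrρ (lam_inj (tw_pos n) (by rw [hp]; exact hr) (by rw [hp]; exact hρ) h3)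
    have hek' := cnt_le (k := k) ha (2 * lam (tw n) r)
    have hq1k' := cnt_le (k := k) hb (r + 2 ^ n)
    obtain ⟨i', hi'⟩ : ∃ i', cnt k a (2 * lam (tw n) r + 1) = i' := ⟨_, rfl⟩
    obtain ⟨e', he'⟩ : ∃ e', cnt k a (2 * lam (tw n) r) = e' := ⟨_, rfl⟩
    obtain ⟨q1', hq1'⟩ : ∃ q, cnt k b (r + 2 ^ n) = q := ⟨_, rfl⟩
    obtain ⟨q2', hq2'⟩ : ∃ q, cnt k b r = q := ⟨_, rfl⟩
    have hq12' : q1' ≤ q2' := by
      rw [← hq1', ← hq2']; exact cnt_anti hb (by omega)
    rw [hi', hq1'] at b1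
    rw [he', hq2'] at b2
    rw [he'] at hek'
    rw [hq1'] at hq1k'
    -- the two runs are disjoint
    rcases Nat.lt_or_ge i e' with g1 | g1
    · rcases Nat.lt_or_ge i' e with g2 | g2
      · -- common slice
        have m1 := cnt_pos (k := k) ha (c := 2 * lam (tw n) ρ) (z := max i i') (by rw [he]; omega)
        have m2 := cnt_neg (k := k) ha (c := 2 * lam (tw n) ρ + 1) (z := max i i') (by omega)
          (by rw [hi]; omega)
        have m3 := cnt_pos (k := k) ha (c := 2 * lam (tw n) r) (z := max i i') (by rw [he']; omega)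
        have m4 := cnt_neg (k := k) ha (c := 2 * lam (tw n) r + 1) (z := max i i') (by omega)
          (by rw [hi']; omega)
        omega
      · have m1 := cnt_pos (k := k) hb (c := r + 2 ^ n) (z := i') (by rw [hq1']; omega)
        have m2 := cnt_neg (k := k) hb (c := ρ) (z := i') (by omega) (by rw [hq2]; omega)
        omega
    · have m1 := cnt_pos (k := k) hb (c := ρ + 2 ^ n) (z := q2') (by rw [hq1]; omega)
      have m2 := cnt_neg (k := k) hb (c := r) (z := q2') (by omega) (by rw [hq2'])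
      omega
  have hs := sum_le_sum key
  rw [sum_add_distrib, sum_add_distrib, sum_ite_eq' (range (2 ^ n)) ρc,
    sum_ite_eq' (range (2 ^ n)) ρ, if_pos (mem_range.2 hρ), if_pos (mem_range.2 hρc)] at hs
  omega

end DKWF
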