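import Pool.Agent.Lib.MP_f05b2f_co.L2.Sections
import Pool.Agent.Lib.MP_f05b2f_co.L2.Swap

/-!
A bad column with a long run: some position is good, or the second sequence drops twice.
-/

namespace DKWF

open Finset

/-- `a` is constant on `[s, e)` and `b` drops at a position `t` inside, with balanced lengths -/
def PS (k : ℕ) (a b : ℕ → ℕ) : Prop :=
  ∃ s t e, s < t ∧ t < e ∧ e ≤ k ∧ (∀ z, s ≤ z → z < e → a z = a s) ∧ b t < b (t - 1) ∧
    s + t < e ∧ k + s < e + t

/-- the level -/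
theorem level_find {n t0 h : ℕ} (h0 : h + 1 ≤ 2 ^ (n + 1)) (ht0 : t0 % 2 ^ n + 2 ^ n < h) :
    ∃ J M, J + M = n ∧ 1 ≤ M ∧ h + 2 ^ J ≤ 2 ^ (n + 1) + t0 % 2 ^ J ∧
      2 ^ (n + 1) + t0 % 2 ^ (J + 1) < h + 2 ^ (J + 1) := by
  classical
  have hex : ∃ J, 2 ^ (n + 1) + t0 % 2 ^ J < h + 2 ^ J := by
    refine ⟨n, ?_⟩
    have : 2 ^ (n + 1) = 2 * 2 ^ n := by rw [pow_succ]; ring
    omega
  obtain ⟨J', h1, h2⟩ : ∃ J', (2 ^ (n + 1) + t0 % 2 ^ J' < h + 2 ^ J') ∧
      ∀ J < J', ¬ (2 ^ (n + 1) + t0 % 2 ^ J < h + 2 ^ J) :=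
    ⟨Nat.find hex, Nat.find_spec hex, fun J hJ => Nat.find_min hex hJ⟩
  have h3 : J' ≤ n := by
    by_contra hcon
    apply h2 n (by omega)
    have : 2 ^ (n + 1) = 2 * 2 ^ n := by rw [pow_succ]; ring
    omega
  have h4 : J' ≠ 0 := by
    rintro rfl
    simp only [pow_zero, Nat.mod_one, add_zero] at h1
    omega
  obtain ⟨J, rfl⟩ : ∃ J, J' = J + 1 := ⟨J' - 1, by omega⟩
  refine ⟨J, n - J, by omega, by omega, ?_, h1⟩
  have h5 := h2 J (by omega)
  omega

theorem main_alpha {k n : ℕ} (hk : 0 < k) (F : FSL k (tw n)) {a b : ℕ → ℕ} (ha : Antitone a)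
    (hb : Antitone b) (haN : ∀ z, a z ≤ 2 ^ (n + 1)) (hbN : ∀ z, b z ≤ 2 ^ (n + 1))
    (hla : ∀ z < k, a (z + 1) < a z → b z ≤ lam (tw (n + 1)) (a z - 1)) {ρ : ℕ}
    (hρ : ρ < 2 ^ n) (h1 : cnt k a (2 * lam (tw n) ρ + 1) < cnt k b (ρ + 2 ^ n))
    (h2 : cnt k b ρ < cnt k a (2 * lam (tw n) ρ))
    (h3 : cnt k a (2 * lam (tw n) ρ + 1) + 2 * k + 1 ≤
      2 * cnt k b (ρ + 2 ^ n) + cnt k a (2 * lam (tw n) ρ)) :
    FS k (tw (n + 1)) a b ∨ PS k a b := by
  obtain ⟨x, hx⟩ : ∃ x, lam (tw n) ρ = x := ⟨_, rfl⟩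
  have hU : 0 < 2 ^ n := Nat.two_pow_pos n
  have hN2 : 2 ^ (n + 1) = 2 * 2 ^ n := by rw [pow_succ]; ring
  obtain ⟨i, hi⟩ : ∃ i, cnt k a (2 * lam (tw n) ρ + 1) = i := ⟨_, rfl⟩
  obtain ⟨e, he⟩ : ∃ e, cnt k a (2 * lam (tw n) ρ) = e := ⟨_, rfl⟩
  obtain ⟨q1, hq1⟩ : ∃ q, cnt k b (ρ + 2 ^ n) = q := ⟨_, rfl⟩
  obtain ⟨q2, hq2⟩ : ∃ q, cnt k b ρ = q := ⟨_, rfl⟩
  rw [hi, he, hq1] at h3
  rw [hi, hq1] at h1
  rw [he, hq2] at h2
  have hek : e ≤ k := he ▸ cnt_le ha _
  have hq1k : q1 ≤ k := hq1 ▸ cnt_le hb _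
  have hq12 : q1 ≤ q2 := by
    rw [← hq1, ← hq2]; exact cnt_anti hb (by omega)
  have A1 : ∀ z < i, 2 * x + 1 < a z := fun z hz => by
    rw [← hx]; exact cnt_pos (k := k) ha (by rw [hi]; exact hz)
  have A2 : ∀ z, i ≤ z → z < e → a z = 2 * x + 1 := fun z h4 h5 => by
    have g1 := cnt_pos (k := k) ha (c := 2 * lam (tw n) ρ) (z := z) (by rw [he]; exact h5)
    have g2 := cnt_neg (k := k) ha (c := 2 * lam (tw n) ρ + 1) (z := z) (by omega)
      (by rw [hi]; exact h4)
    omega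
  have A3 : ∀ z, e ≤ z → z < k → a z ≤ 2 * x := fun z h4 h5 => by
    rw [← hx]; exact cnt_neg (k := k) ha h5 (by rw [he]; exact h4)
  have B1 : ∀ z < q1, ρ + 2 ^ n < b z := fun z hz => cnt_pos (k := k) hb (by rw [hq1]; exact hz)
  have B2 : ∀ z, q2 ≤ z → z < k → b z ≤ ρ := fun z h4 h5 =>
    cnt_neg (k := k) hb h5 (by rw [hq2]; exact h4)
  -- the first drop of b after the first `k - e` slices of the run
  obtain ⟨h, hh⟩ : ∃ h, b (i + (k - e)) = h := ⟨_, rfl⟩
  have hh1 : ρ + 2 ^ n < h := by rw [← hh]; exact B1 _ (by omega)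
  obtain ⟨t1, ht1k, ht1⟩ := seg_exists k (P := fun z => h ≤ b z)
    (fun z z' hz h4 => le_trans h4 (hb hz))
  have ht1q : t1 ≤ q2 := by
    by_contra hcon
    have g1 := (ht1 q2 (by omega)).1 (by omega)
    have g2 := B2 q2 le_rfl (by omega)
    omega
  have ht1i : i + (k - e) < t1 := (ht1 _ (by omega)).2 hh.ge
  have Bt : ∀ z < t1, h ≤ b z := fun z hz => (ht1 z (by omega)).1 hz
  have Bt' : b t1 < h := by
    by_contra hcon
    have := (ht1 t1 (by omega)).2 (not_lt.1 hcon)
    omega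
  rcases Nat.lt_or_ge (i + t1) e with hcase | hcase
  · -- the run after the drop is long
    right
    refine ⟨i, t1, e, by omega, by omega, hek, fun z h4 h5 => ?_, ?_, hcase, by omega⟩
    · rw [A2 z h4 h5, A2 i le_rfl (by omega)]
    · exact lt_of_lt_of_le Bt' (Bt _ (by omega))
  left
  have hi1 : 1 ≤ i := by omega
  have hm : i + (2 * (k - e) + 3) ≤ e := by omega
  -- consequences of the interlacing condition
  have E0 : ∀ d, d < i → h ≤ lam (tw (n + 1)) (a (i - 1 - d) - 1) := by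
    intro d
    induction d with
    | zero =>
      intro hd
      have g1 : a (i - 1 + 1) < a (i - 1) := by
        have e1 : i - 1 + 1 = i := by omega
        rw [e1, A2 i le_rfl (by omega)]
        exact A1 _ (by omega)
      have g2 := hla (i - 1) (by omega) g1
      have g3 := Bt (i - 1) (by omega)
      rw [Nat.sub_zero]
      omega
    | succ d ih =>
      intro hd
      have g0 := ih (by omega)
      have e1 : i - 1 - (d + 1) + 1 = i - 1 - d := by omega
      rcases Nat.lt_or_ge (a (i - 1 - d)) (a (i - 1 - (d + 1))) with g1 | g1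
      · have g2 := hla (i - 1 - (d + 1)) (by omega) (by rw [e1]; exact g1)
        have g3 := Bt (i - 1 - (d + 1)) (by omega)
        omega
      · have g2 := ha (show i - 1 - (d + 1) ≤ i - 1 - d by omega)
        have g3 : a (i - 1 - (d + 1)) = a (i - 1 - d) := by omega
        rw [g3]
        exact g0
  have E : ∀ z < i, h ≤ lam (tw (n + 1)) (a z - 1) := by
    intro z hz
    have := E0 (i - 1 - z) (by omega)
    have e1 : i - 1 - (i - 1 - z) = z := by omega
    rwa [e1] at this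
  have hhN : h + 1 ≤ 2 ^ (n + 1) := by
    have g1 := E 0 (by omega)
    have g2 := tw_lt (n + 1) (a 0 - 1)
    omega
  -- the level
  obtain ⟨t0, ht0⟩ : ∃ t0, ρ + 2 ^ n = t0 := ⟨_, rfl⟩
  have ht0m : t0 % 2 ^ n = ρ := by
    rw [← ht0, Nat.add_mod_right, Nat.mod_eq_of_lt hρ]
  obtain ⟨J, M, hJM, hM, hL1, hL2⟩ := level_find (n := n) (t0 := t0) (h := h) hhN
    (by rw [ht0m]; exact hh1)
  obtain ⟨W, hW⟩ : ∃ W, 2 ^ J = W := ⟨_, rfl⟩
  have hW0 : 0 < W := hW ▸ Nat.two_pow_pos J
  obtain ⟨V, hV⟩ : ∃ V, 2 ^ M = V := ⟨_, rfl⟩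
  have hV0 : 0 < V := hV ▸ Nat.two_pow_pos M
  have hUW : 2 ^ n = W * V := by rw [← hJM, pow_add, hW, hV]
  have hNW : 2 ^ (n + 1) = W * (2 * V) := by rw [hN2, hUW]; ring
  have hM1 : 2 ^ (M + 1) = 2 * V := by rw [pow_succ, hV]; ring
  have hJ1 : 2 ^ (J + 1) = W * 2 := by rw [pow_succ, hW]
  obtain ⟨ρs, hρs⟩ : ∃ r, t0 % W = r := ⟨_, rfl⟩
  obtain ⟨t', ht'⟩ : ∃ t', t0 / W = t' := ⟨_, rfl⟩
  have hρsW : ρs < W := by rw [← hρs]; exact Nat.mod_lt _ hW0
  have ht0e : t0 = W * t' + ρs := by rw [← hρs, ← ht']; exact (Nat.div_add_mod t0 W).symm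
  rw [hJ1, Nat.mod_mul, hρs, ht'] at hL2
  rw [hW, hρs] at hL1
  have ht'even : t' % 2 = 0 := by
    rcases Nat.mod_two_eq_zero_or_one t' with g | g
    · exact g
    · rw [g] at hL2; omega
  rw [ht'even] at hL2
  have hL2' : W * (2 * V - 2) + ρs < h := by
    rw [Nat.mul_sub]
    omega
  have hL1' : h ≤ W * (2 * V - 1) + ρs := by
    rw [Nat.mul_sub, mul_one, ← hNW]
    omega
  have ht'V : V ≤ t' := by
    rw [← ht', Nat.le_div_iff_mul_le hW0, mul_comm, ← hUW]
    omega
  have ht'2V : t' + 2 ≤ 2 * V := by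
    have : t' < 2 * V := by
      rw [← ht', Nat.div_lt_iff_lt_mul hW0, mul_comm, ← hNW]
      omega
    omega
  -- the value of the run
  obtain ⟨X, hX⟩ : ∃ X, lam (tw J) ρs = X := ⟨_, rfl⟩
  have hv1 : lam (tw (n + 1)) t0 = 2 * x + 1 := by
    rw [tw_snoc, lam_append, lam_singleton, tw_prod, ← ht0]
    have g1 := lam_add (tw_pos n) ρ 1
    rw [tw_prod, mul_one] at g1
    rw [g1, hx, Nat.add_div_right _ hU, Nat.div_eq_of_lt hρ]
    simp
    ring
  have hv2 : lam (tw (n + 1)) t0 = X * (2 * V) + lam (tw (M + 1)) t' := by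
    have g0 : n + 1 = J + (M + 1) := by omega
    rw [g0, tw_add, lam_append, tw_prod, tw_prod, hW, ht', hM1, ht0e]
    have g1 := lam_add (tw_pos J) ρs t'
    rw [tw_prod, hW] at g1
    rw [Nat.add_comm (W * t') ρs, g1, hX]
  obtain ⟨vs, hvs⟩ : ∃ v, lam (tw (M + 1)) t' = v := ⟨_, rfl⟩
  have hvsV : vs < 2 ^ M := by rw [← hvs]; exact tw_even ht'even
  have hvs1 : 1 ≤ vs := by
    rw [← hvs, tw_snoc, lam_append, lam_singleton, tw_prod, hV]
    have g1 : t' / V = 1 := by
      rw [Nat.div_eq_iff hV0]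
      omega
    rw [g1]
    omega
  rw [hvs] at hv2
  have hvv : 2 * x + 1 = X * (2 * V) + vs := by rw [← hv1, hv2]
  -- the number of slices of b above the threshold
  obtain ⟨g, hg⟩ : ∃ g, cnt k b (W * (2 * V - 1) + ρs) = g := ⟨_, rfl⟩
  have hG : g ≤ i + (k - e) := by
    rw [← hg]
    apply cnt_le_of hb
    intro z hz h4
    have := hb h4
    omega
  have hρe : ρ + W * V = W * t' + ρs := by rw [← hUW, ht0, ht0e]
  -- the structure of the slices before the run
  have hE' : ∀ z < i, ∃ y < 2 ^ J, a z = (lam (tw J) y + 1) * 2 ^ (M + 1) ∨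
      (a z = lam (tw J) y * 2 ^ (M + 1) + 2 ^ M ∧ ρs < y) := by
    intro z hz
    have g1 := E z hz
    obtain ⟨t, ht⟩ : ∃ t, lam (tw (n + 1)) (a z - 1) = t := ⟨_, rfl⟩
    rw [ht] at g1
    have haz := A1 z hz
    have haz' := haN z
    have ht2 : t < W * (2 * V) := by
      rw [← ht, ← hNW]; exact tw_lt _ _
    have g2 : lam (tw (n + 1)) t = a z - 1 := by
      rw [← ht]; exact tw_invol (by omega)
    obtain ⟨y, hy⟩ : ∃ y, t % W = y := ⟨_, rfl⟩
    obtain ⟨τ, hτ⟩ : ∃ τ, t / W = τ := ⟨_, rfl⟩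
    have hyW : y < W := by rw [← hy]; exact Nat.mod_lt _ hW0
    have hte : t = W * τ + y := by rw [← hy, ← hτ]; exact (Nat.div_add_mod t W).symm
    have hτ1 : τ < 2 * V := by
      rw [← hτ, Nat.div_lt_iff_lt_mul hW0, mul_comm]; exact ht2
    have hτ2 : 2 * V - 2 ≤ τ := by
      rw [← hτ, Nat.le_div_iff_mul_le hW0, mul_comm]
      omega
    have g3 : a z - 1 = lam (tw J) y * (2 * V) + lam (tw (M + 1)) τ := by
      rw [← g2]
      have g0 : n + 1 = J + (M + 1) := by omega
      rw [g0, tw_add, lam_append, tw_prod, tw_prod, hW, hτ, hM1, hte]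
      have g1 := lam_add (tw_pos J) y τ
      rw [tw_prod, hW] at g1
      rw [Nat.add_comm (W * τ) y, g1]
    refine ⟨y, by rw [hW]; exact hyW, ?_⟩
    have hτ3 : τ = 2 * V - 1 ∨ τ = 2 * V - 2 := by omega
    rcases hτ3 with hτ3 | hτ3
    · left
      have g4 := tw_last (M + 1)
      rw [hM1] at g4
      rw [hτ3, g4] at g3
      rw [hM1, Nat.add_mul, one_mul]
      omega
    · right
      have g4 := tw_last2 M
      rw [hM1, hV] at g4
      rw [hτ3, g4] at g3
      refine ⟨by rw [hM1, hV]; omega, ?_⟩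
      rw [hτ3] at hte
      omega
  rcases Nat.lt_or_ge (q2 + g) e with hgu | hgu
  · -- all the sections are good
    have hgk : g + q2 ≤ k := by omega
    have e0 : n + 1 = J + (M + 1) := by omega
    have F' : FSL k (tw J ++ tw M) := by rw [← tw_add, hJM]; exact F
    have hls : tw (n + 1) = tw J ++ (tw M ++ [2]) := by rw [e0, tw_add, ← tw_snoc]
    rw [hls]
    refine FS.of_good hk two_pos (tw_pos J) (tw_pos M) F' (fun z => ?_) (fun z => ?_) ?_
    · rw [← hls, tw_prod]; exact haN z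
    · rw [← hls, tw_prod]; exact hbN z
    · intro ρ' hρ'
      rw [← tw_snoc, tw_prod, tw_prod, secA, secB]
      rw [tw_prod] at hρ'
      have key := sections (k := k) (J := J) (M := M) (i := i) (t1 := t1) (e := e) (q2 := q2)
        (g := g) (vs := vs) (ρs := ρs) (h := h) hk ha hb
        (fun z => by rw [hW, hM1, ← hNW]; exact hbN z) hM (by rw [hW]; exact hρsW) hi1 (by omega)
        ht1q h2.le hek (by omega) hm (by omega) hvs1 hvsV hE'
        (fun z hz => by rw [hX, hM1, ← hvv]; exact A1 z hz)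
        (fun z h4 h5 => by rw [hX, hM1, ← hvv]; exact A2 z h4 h5)
        (fun z h4 h5 => by
          have := A3 z h4 h5
          rw [hX, hM1, ← hvv]; omega)
        (by rw [hW, hM1]; exact hL2') Bt
        (fun z h4 h5 => by
          have g1 := B2 z h4 h5
          rw [hW, hV]
          have g2 : W * t' ≤ W * (2 * V - 2) := Nat.mul_le_mul_left _ (by omega)
          have g3 : W * (2 * V - 2) = W * V + W * (V - 2) := by
            rw [← Nat.mul_add]
            congr 1
            have : 2 ≤ V := by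
              rw [← hV]
              calc 2 = 2 ^ 1 := rfl
                _ ≤ 2 ^ M := Nat.pow_le_pow_right two_pos hM
            omega
          omega)
        (fun z h4 h5 => by
          rw [hW, hM1]
          exact cnt_neg (k := k) hb h4 (by rw [hg]; exact h5))
        (by omega) hgk hρ'
      refine key.trans (le_of_eq ?_)
      apply sum_congr rfl
      intro z _
      have := H_clip (tw_pos (M + 1)) (a z - lam (tw J) ρ' * 2 ^ (M + 1))
        ((b z + (2 ^ J - 1 - ρ')) / 2 ^ J)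
      rw [tw_prod] at this
      exact this
  · -- compensation
    obtain ⟨ρc, hρc⟩ : ∃ r, ρs + W * (V - 1) = r := ⟨_, rfl⟩
    have hWV : W * (V - 1) + W = W * V := by
      rw [← Nat.mul_succ]
      congr 1
      omega
    have hρcU : ρc < 2 ^ n := by rw [hUW]; omega
    have hne : ρ < ρc := by
      have g2 : W * t' ≤ W * (2 * V - 2) := Nat.mul_le_mul_left _ (by omega)
      have g3 : W * (2 * V - 2) + W = W * V + W * (V - 1) := by
        rw [← Nat.mul_succ, ← Nat.mul_add]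
        congr 1
        omega
      omega
    have hxc : lam (tw n) ρc = X * V + (V - 1) := by
      rw [← hJM, tw_add, lam_append, tw_prod, tw_prod, hW, hV, ← hρc]
      have g1 := lam_add (tw_pos J) ρs (V - 1)
      rw [tw_prod, hW] at g1
      rw [g1, hX, Nat.add_mul_div_left _ _ hW0, Nat.div_eq_of_lt hρsW, zero_add]
      have g2 := tw_last M
      rw [hV] at g2
      rw [g2]
    have hXV : X * (2 * V) = 2 * (X * V) := by ring
    have hthr : ρc + 2 ^ n = W * (2 * V - 1) + ρs := by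
      have g3 : W * (2 * V - 1) = W * V + W * (V - 1) := by
        rw [← Nat.mul_add]
        congr 1
        omega
      rw [hUW]
      omega
    have c1 : ∀ z < i, X * (2 * V) + 2 * V ≤ a z := by
      intro z hz
      have g0 := A1 z hz
      obtain ⟨y, hy, g1 | ⟨g1, g2⟩⟩ := hE' z hz
      · rw [hM1] at g1
        have g4 : X ≤ lam (tw J) y := by
          by_contra hcon
          have g5 : (lam (tw J) y + 1) * (2 * V) ≤ X * (2 * V) :=
            Nat.mul_le_mul_right _ (not_le.1 hcon)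
          omega
        have g5 : (X + 1) * (2 * V) ≤ (lam (tw J) y + 1) * (2 * V) :=
          Nat.mul_le_mul_right _ (by omega)
        rw [Nat.succ_mul] at g5
        omega
      · rw [hM1, hV] at g1
        have g4 : X ≤ lam (tw J) y := by
          by_contra hcon
          have g5 : (lam (tw J) y + 1) * (2 * V) ≤ X * (2 * V) :=
            Nat.mul_le_mul_right _ (not_le.1 hcon)
          rw [Nat.succ_mul] at g5
          omega
        have g6 : lam (tw J) y ≠ X := by
          intro g7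
          have g8 : y = ρs := lam_inj (tw_pos J) (by rw [tw_prod]; exact hy)
            (by rw [tw_prod, hW]; exact hρsW) (by rw [g7, hX])
          omega
        have g5 : (X + 1) * (2 * V) ≤ lam (tw J) y * (2 * V) :=
          Nat.mul_le_mul_right _ (by omega)
        rw [Nat.succ_mul] at g5
        omega
    have c2 : ∀ z, i ≤ z → z < k → a z ≤ X * (2 * V) + vs := by
      intro z h4 h5
      rcases Nat.lt_or_ge z e with h6 | h6
      · rw [A2 z h4 h6, hvv]
      · have := A3 z h6 h5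
        omega
    rw [hV] at hvsV
    have hc1 : cnt k a (2 * lam (tw n) ρc) = i := by
      rw [hxc]
      apply le_antisymm
      · exact cnt_le_of ha (fun z hz h4 => by have := c2 z h4 hz; omega)
      · exact le_cnt ha (by omega) (fun z hz => by have := c1 z hz; omega)
    have hc2 : cnt k a (2 * lam (tw n) ρc + 1) = i := by
      rw [hxc]
      apply le_antisymm
      · exact cnt_le_of ha (fun z hz h4 => by have := c2 z h4 hz; omega)
      · exact le_cnt ha (by omega) (fun z hz => by have := c1 z hz; omega)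
    refine col_swap (ρ := ρ) (ρc := ρc) (g := g) hk F ha hb haN hbN hρ hρcU (by omega) hi he hq1
      hq2 h1 h2 hc1 hc2 ?_ ?_ ?_ (by omega) hgu (by omega)
    · apply le_cnt hb (by omega)
      intro z hz
      have := B1 z (by omega)
      omega
    · rw [← hq2]; exact cnt_anti hb hne.le
    · rw [hthr]; exact hg

end DKWF
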