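import Pool.Agent.Lib.MP_f05b2f_co.L2.Lev

/-!
`FSL k (tw r)` for all `k` and `r`.
-/

namespace DKWF

open Finset

/-- the complement of a sequence, reversed -/
def co (k N : ℕ) (f : ℕ → ℕ) (z : ℕ) : ℕ := if z < k then N - f (k - 1 - z) else 0

theorem co_anti {k N : ℕ} {f : ℕ → ℕ} (hf : Antitone f) : Antitone (co k N f) := by
  intro z z' hz
  have h1 : f (k - 1 - z) ≤ f (k - 1 - z') := hf (by omega)
  unfold co
  split_ifs <;> omega

theorem co_le {k N : ℕ} (f : ℕ → ℕ) (z : ℕ) : co k N f z ≤ N := by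
  unfold co
  split_ifs <;> omega

theorem co_val {k N : ℕ} (f : ℕ → ℕ) {z : ℕ} (hz : z < k) : co k N f z = N - f (k - 1 - z) := by
  unfold co
  rw [if_pos hz]

theorem cnt_co {k N : ℕ} {f : ℕ → ℕ} (hf : Antitone f) (hN : ∀ z, f z ≤ N) {c : ℕ} (hc : c < N) :
    cnt k (co k N f) c = k - cnt k f (N - 1 - c) := by
  have h1 := cnt_spec (k := k) hf (N - 1 - c)
  apply sum_seg (by omega)
  intro z hz
  have h2 := h1.2 (k - 1 - z) (by omega)
  have h3 := hN (k - 1 - z)
  rw [co_val f hz]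
  constructor
  · intro h4
    have : ¬ (N - 1 - c < f (k - 1 - z)) := fun h5 => by
      have := h2.2 h5
      omega
    omega
  · intro h4
    by_contra h5
    have := h2.1 (by omega)
    omega

theorem sum_co {k N : ℕ} {f : ℕ → ℕ} (hN : ∀ z, f z ≤ N) :
    ∑ z ∈ range k, co k N f z + ∑ z ∈ range k, f z = k * N := by
  have e1 : ∑ z ∈ range k, co k N f z = ∑ z ∈ range k, (N - f z) := by
    rw [← sum_range_reflect (fun z => N - f z) k]
    exact sum_congr rfl (fun z hz => co_val f (mem_range.1 hz))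
  rw [e1, ← sum_add_distrib, sum_congr rfl (fun z _ => Nat.sub_add_cancel (hN z)), sum_const,
    card_range, smul_eq_mul]

theorem sum_co_H {k p : ℕ} {a b : ℕ → ℕ} (haN : ∀ z, a z ≤ 2 ^ p) (hbN : ∀ z, b z ≤ 2 ^ p) :
    ∑ z ∈ range k, H (tw p) (co k (2 ^ p) a z) (co k (2 ^ p) b z) + ∑ z ∈ range k, a z +
      ∑ z ∈ range k, b z = k * 2 ^ p + ∑ z ∈ range k, H (tw p) (a z) (b z) := by
  have e1 : ∑ z ∈ range k, H (tw p) (co k (2 ^ p) a z) (co k (2 ^ p) b z) =
      ∑ z ∈ range k, H (tw p) (2 ^ p - a z) (2 ^ p - b z) := by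
    rw [← sum_range_reflect (fun z => H (tw p) (2 ^ p - a z) (2 ^ p - b z)) k]
    exact sum_congr rfl (fun z hz => by rw [co_val a (mem_range.1 hz), co_val b (mem_range.1 hz)])
  rw [e1, ← sum_add_distrib, ← sum_add_distrib,
    sum_congr rfl (fun z _ => tw_compl_H (haN z) (hbN z)), sum_add_distrib, sum_const, card_range,
    smul_eq_mul]

theorem FS.of_co {k p : ℕ} (hk : 0 < k) {a b : ℕ → ℕ} (haN : ∀ z, a z ≤ 2 ^ p)
    (hbN : ∀ z, b z ≤ 2 ^ p) (h : FS k (tw p) (co k (2 ^ p) a) (co k (2 ^ p) b)) :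
    FS k (tw p) a b := by
  obtain ⟨l1, l2, hl, hF⟩ := h
  refine ⟨l1, l2, hl, ?_⟩
  have hpos : Pos (l1 ++ k :: l2) := Pos.insert hk (hl ▸ tw_pos p)
  have hp : (l1 ++ k :: l2).prod = k * 2 ^ p := by rw [prod_insert, hl, tw_prod]
  have hA := sum_co (k := k) haN
  have hB := sum_co (k := k) hbN
  have hD := sum_co_H (k := k) haN hbN
  have hc := H_compl hpos (n := ∑ z ∈ range k, a z) (c := 1) (b := ∑ z ∈ range k, b z)
    (by rw [hp]; omega) (by rw [hp]; omega)
  rw [hp, one_mul, one_mul] at hc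
  have e1 : k * 2 ^ p - ∑ z ∈ range k, a z = ∑ z ∈ range k, co k (2 ^ p) a z := by omega
  have e2 : k * 2 ^ p - ∑ z ∈ range k, b z = ∑ z ∈ range k, co k (2 ^ p) b z := by omega
  rw [e1, e2] at hc
  omega

theorem PS.of_co {k N : ℕ} {a b : ℕ → ℕ} (haN : ∀ z, a z ≤ N)
    (h : PS k (co k N a) (co k N b)) : PS k a b := by
  obtain ⟨s, t, e, h1, h2, h3, h4, h5, h6, h7⟩ := h
  refine ⟨k - e, k - t, k - s, by omega, by omega, by omega, ?_, ?_, by omega, by omega⟩
  · have key : ∀ z, k - e ≤ z → z < k - s → a z = N - co k N a s := by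
      intro z g1 g2
      have g3 := h4 (k - 1 - z) (by omega) (by omega)
      rw [← g3, co_val a (by omega)]
      have e1 : k - 1 - (k - 1 - z) = z := by omega
      rw [e1]
      have := haN z
      omega
    intro z g1 g2
    rw [key z g1 g2, key (k - e) le_rfl (by omega)]
  · rw [co_val b (by omega), co_val b (by omega)] at h5
    have e1 : k - 1 - t = k - t - 1 := by omega
    have e2 : k - 1 - (t - 1) = k - t := by omega
    rw [e1, e2] at h5
    omega

theorem PS.excl {k : ℕ} {a b : ℕ → ℕ} (h : PS k a b) (h' : PS k b a) : False := by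
  obtain ⟨s, t, e, h1, h2, h3, h4, h5, h6, h7⟩ := h
  obtain ⟨s', t', e', g1, g2, g3, g4, g5, g6, g7⟩ := h'
  have c1 : t' ≤ s ∨ e ≤ t' := by
    by_contra hcon
    have m1 := h4 t' (by omega) (by omega)
    have m2 := h4 (t' - 1) (by omega) (by omega)
    omega
  have c2 : t ≤ s' ∨ e' ≤ t := by
    by_contra hcon
    have m1 := g4 t (by omega) (by omega)
    have m2 := g4 (t - 1) (by omega) (by omega)
    omega
  omega

/-- either some position is good, or `a` has a long run over which `b` drops -/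
theorem col {k n : ℕ} (hk : 0 < k) (F : FSL k (tw n)) {a b : ℕ → ℕ} (ha : Antitone a)
    (hb : Antitone b) (haN : ∀ z, a z ≤ 2 ^ (n + 1)) (hbN : ∀ z, b z ≤ 2 ^ (n + 1))
    (hla : ∀ z < k, a (z + 1) < a z → b z ≤ lam (tw (n + 1)) (a z - 1))
    (hra : ∀ z < k, a z < 2 ^ (n + 1) → (0 < z → a z < a (z - 1)) →
      lam (tw (n + 1)) (a z) < b z) : FS k (tw (n + 1)) a b ∨ PS k a b := by
  have hor := FS.or_bad (l := 2) (l1 := tw n) (a := a) (b := b) hk two_pos (tw_pos n) F
    (fun z => by rw [← tw_snoc, tw_prod]; exact haN z)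
    (fun z => by rw [← tw_snoc, tw_prod]; exact hbN z)
  rw [← tw_snoc] at hor
  rcases hor with hor | ⟨ρ, hρ, hbad⟩
  · exact Or.inl hor
  rw [tw_prod] at hρ hbad
  obtain ⟨h1, h2, h3 | h3⟩ := bad2 hk ha hb hbN hρ _ hbad
  · exact main_alpha hk F ha hb haN hbN hla hρ h1 h2 h3
  · -- the complement
    have hU := Nat.two_pow_pos n
    have hN2 : 2 ^ (n + 1) = 2 * 2 ^ n := by rw [pow_succ]; ring
    obtain ⟨x, hx⟩ : ∃ x, lam (tw n) ρ = x := ⟨_, rfl⟩
    have hxU : x < 2 ^ n := by rw [← hx]; exact tw_lt n ρ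
    have hxc : lam (tw n) (2 ^ n - 1 - ρ) = 2 ^ n - 1 - x := by
      have := tw_compl hρ
      omega
    have c1 : cnt k (co k (2 ^ (n + 1)) a) (2 * (2 ^ n - 1 - x) + 1) = k - cnt k a (2 * x) := by
      rw [cnt_co ha haN (by omega)]
      congr 2
      omega
    have c2 : cnt k (co k (2 ^ (n + 1)) a) (2 * (2 ^ n - 1 - x)) = k - cnt k a (2 * x + 1) := by
      rw [cnt_co ha haN (by omega)]
      congr 2
      omega
    have c3 : cnt k (co k (2 ^ (n + 1)) b) (2 ^ n - 1 - ρ + 2 ^ n) = k - cnt k b ρ := by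
      rw [cnt_co hb hbN (by omega)]
      congr 2
      omega
    have c4 : cnt k (co k (2 ^ (n + 1)) b) (2 ^ n - 1 - ρ) = k - cnt k b (ρ + 2 ^ n) := by
      rw [cnt_co hb hbN (by omega)]
      congr 2
      omega
    rw [hx] at h1 h2 h3
    have k1 := cnt_le (k := k) ha (2 * x)
    have k2 := cnt_le (k := k) ha (2 * x + 1)
    have k3 := cnt_le (k := k) hb ρ
    have k4 := cnt_le (k := k) hb (ρ + 2 ^ n)
    have hla' : ∀ z < k, co k (2 ^ (n + 1)) a (z + 1) < co k (2 ^ (n + 1)) a z →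
        co k (2 ^ (n + 1)) b z ≤ lam (tw (n + 1)) (co k (2 ^ (n + 1)) a z - 1) := by
      intro z hz hlt
      obtain ⟨y, hy⟩ : ∃ y, k - 1 - z = y := ⟨_, rfl⟩
      rw [co_val a hz, hy] at hlt ⊢
      rw [co_val b hz, hy]
      have g1 : a y < 2 ^ (n + 1) := by omega
      have g2 : 0 < y → a y < a (y - 1) := by
        intro g3
        rw [co_val a (by omega)] at hlt
        have e1 : k - 1 - (z + 1) = y - 1 := by omega
        rw [e1] at hlt
        omega
      have g3 := hra y (by omega) g1 g2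
      have g4 := tw_compl g1
      have e2 : 2 ^ (n + 1) - a y - 1 = 2 ^ (n + 1) - 1 - a y := by omega
      rw [e2]
      omega
    rcases main_alpha (ρ := 2 ^ n - 1 - ρ) hk F (co_anti ha) (co_anti hb) (co_le a) (co_le b) hla'
      (by omega) (by rw [hxc, c1, c3]; omega) (by rw [hxc, c2, c4]; omega)
      (by rw [hxc, c1, c2, c3]; omega) with hF | hP
    · exact Or.inl (FS.of_co hk haN hbN hF)
    · exact Or.inr (PS.of_co haN hP)

/-- admissible sequences -/
structure Adm (k N : ℕ) (a : ℕ → ℕ) : Prop where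
  anti : Antitone a
  le : ∀ z, a z ≤ N
  zero : ∀ z, k ≤ z → a z = 0

/-- change one value -/
def upd (a : ℕ → ℕ) (z0 v : ℕ) (z : ℕ) : ℕ := if z = z0 then v else a z

theorem sum_upd {k z0 : ℕ} (hz : z0 < k) (G : ℕ → ℕ → ℕ) (a : ℕ → ℕ) (v : ℕ) :
    ∑ z ∈ range k, G z (upd a z0 v z) + G z0 (a z0) = ∑ z ∈ range k, G z (a z) + G z0 v := by
  have h1 := add_sum_erase (range k) (fun z => G z (upd a z0 v z)) (mem_range.2 hz)
  have h2 := add_sum_erase (range k) (fun z => G z (a z)) (mem_range.2 hz)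
  have h3 : ∑ z ∈ (range k).erase z0, G z (upd a z0 v z) = ∑ z ∈ (range k).erase z0, G z (a z) := by
    apply sum_congr rfl
    intro z hz'
    have : z ≠ z0 := (mem_erase.1 hz').1
    rw [upd, if_neg this]
  have h4 : upd a z0 v z0 = v := by rw [upd, if_pos rfl]
  rw [h3, h4] at h1
  omega

/-- the measure of the descent -/
def mu (k p : ℕ) (a b : ℕ → ℕ) : ℕ := 2 * ∑ z ∈ range k, H (tw p) (a z) (b z) +
  ∑ z ∈ range k, (2 ^ p - a z) + ∑ z ∈ range k, (2 ^ p - b z)

theorem mu_comm {k p : ℕ} {a b : ℕ → ℕ} (ha : Adm k (2 ^ p) a) (hb : Adm k (2 ^ p) b) :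
    mu k p a b = mu k p b a := by
  unfold mu
  rw [sum_congr rfl (fun z _ => tw_comm (ha.le z) (hb.le z))]
  ring

/-- lowering `a` at the end of a run -/
theorem move_down {k p z : ℕ} (hk : 0 < k) {a b : ℕ → ℕ} (ha : Adm k (2 ^ p) a)
    (hb : Adm k (2 ^ p) b) (hz : z < k) (h1 : a (z + 1) < a z) (h2 : lam (tw p) (a z - 1) < b z) :
    ∃ a', Adm k (2 ^ p) a' ∧ mu k p a' b < mu k p a b ∧ (FS k (tw p) a' b → FS k (tw p) a b) := by
  have hA : ∑ y ∈ range k, upd a z (a z - 1) y + a z = ∑ y ∈ range k, a y + (a z - 1) :=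
    sum_upd hz (fun _ x => x) a (a z - 1)
  have hH : ∑ y ∈ range k, H (tw p) (upd a z (a z - 1) y) (b y) + H (tw p) (a z) (b z) =
      ∑ y ∈ range k, H (tw p) (a y) (b y) + H (tw p) (a z - 1) (b z) :=
    sum_upd hz (fun y x => H (tw p) x (b y)) a (a z - 1)
  have hC : ∑ y ∈ range k, (2 ^ p - upd a z (a z - 1) y) + (2 ^ p - a z) =
      ∑ y ∈ range k, (2 ^ p - a y) + (2 ^ p - (a z - 1)) :=
    sum_upd hz (fun _ x => 2 ^ p - x) a (a z - 1)
  have haz := ha.le z
  have hbz := hb.le z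
  have hs := tw_succ_left (n := p) (a := a z - 1) (b := b z) (by omega) hbz
  rw [if_pos h2, Nat.sub_add_cancel (by omega)] at hs
  refine ⟨upd a z (a z - 1), ⟨?_, ?_, ?_⟩, ?_, ?_⟩
  · apply antitone_nat_of_succ_le
    intro y
    have h3 := ha.anti (show y ≤ y + 1 by omega)
    unfold upd
    split_ifs with g1 g2 g2
    · omega
    · have : a z ≤ a y := by rw [← g1]; exact h3
      omega
    · subst g2; omega
    · exact h3
  · intro y
    have h3 := ha.le y
    unfold upd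
    split_ifs <;> omega
  · intro y hy
    unfold upd
    rw [if_neg (by omega)]
    exact ha.zero y hy
  · unfold mu
    omega
  · rintro ⟨l1, l2, hl, hF⟩
    refine ⟨l1, l2, hl, ?_⟩
    have hpos : Pos (l1 ++ k :: l2) := Pos.insert hk (hl ▸ tw_pos p)
    have hp : (l1 ++ k :: l2).prod = k * 2 ^ p := by rw [prod_insert, hl, tw_prod]
    have hlip := H_lip_left hpos (∑ y ∈ range k, upd a z (a z - 1) y) 1
      (b := ∑ y ∈ range k, b y) (by rw [hp]; exact sum_le_mul (fun y _ => hb.le y))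
    have e1 : ∑ y ∈ range k, upd a z (a z - 1) y + 1 = ∑ y ∈ range k, a y := by omega
    rw [e1] at hlip
    omega

/-- raising `a` at the start of a run -/
theorem move_up {k p z : ℕ} {a b : ℕ → ℕ} (ha : Adm k (2 ^ p) a)
    (hb : Adm k (2 ^ p) b) (hz : z < k) (h0 : a z < 2 ^ p) (h1 : 0 < z → a z < a (z - 1))
    (h2 : b z ≤ lam (tw p) (a z)) :
    ∃ a', Adm k (2 ^ p) a' ∧ mu k p a' b < mu k p a b ∧ (FS k (tw p) a' b → FS k (tw p) a b) := by
  have hA : ∑ y ∈ range k, upd a z (a z + 1) y + a z = ∑ y ∈ range k, a y + (a z + 1) :=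
    sum_upd hz (fun _ x => x) a (a z + 1)
  have hH : ∑ y ∈ range k, H (tw p) (upd a z (a z + 1) y) (b y) + H (tw p) (a z) (b z) =
      ∑ y ∈ range k, H (tw p) (a y) (b y) + H (tw p) (a z + 1) (b z) :=
    sum_upd hz (fun y x => H (tw p) x (b y)) a (a z + 1)
  have hC : ∑ y ∈ range k, (2 ^ p - upd a z (a z + 1) y) + (2 ^ p - a z) =
      ∑ y ∈ range k, (2 ^ p - a y) + (2 ^ p - (a z + 1)) :=
    sum_upd hz (fun _ x => 2 ^ p - x) a (a z + 1)
  have hbz := hb.le z
  have hs := tw_succ_left (n := p) (a := a z) (b := b z) h0 hbz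
  rw [if_neg (by omega)] at hs
  refine ⟨upd a z (a z + 1), ⟨?_, ?_, ?_⟩, ?_, ?_⟩
  · apply antitone_nat_of_succ_le
    intro y
    have h3 := ha.anti (show y ≤ y + 1 by omega)
    unfold upd
    split_ifs with g1 g2 g2
    · omega
    · subst g1
      have := h1 (by omega)
      rw [Nat.add_sub_cancel] at this
      omega
    · subst g2; omega
    · exact h3
  · intro y
    have h3 := ha.le y
    unfold upd
    split_ifs <;> omega
  · intro y hy
    unfold upd
    rw [if_neg (by omega)]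
    exact ha.zero y hy
  · unfold mu
    omega
  · rintro ⟨l1, l2, hl, hF⟩
    refine ⟨l1, l2, hl, ?_⟩
    have hmono := H_mono_left (l1 ++ k :: l2) (show ∑ y ∈ range k, a y ≤
      ∑ y ∈ range k, upd a z (a z + 1) y by omega) (∑ y ∈ range k, b y)
    omega

/-- one sequence: a move is possible, or the interlacing conditions hold -/
theorem move_or {k p : ℕ} (hk : 0 < k) {a b : ℕ → ℕ} (ha : Adm k (2 ^ p) a)
    (hb : Adm k (2 ^ p) b) :
    (∃ a', Adm k (2 ^ p) a' ∧ mu k p a' b < mu k p a b ∧ (FS k (tw p) a' b → FS k (tw p) a b)) ∨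
    ((∀ z < k, a (z + 1) < a z → b z ≤ lam (tw p) (a z - 1)) ∧
      (∀ z < k, a z < 2 ^ p → (0 < z → a z < a (z - 1)) → lam (tw p) (a z) < b z)) := by
  by_cases h1 : ∀ z < k, a (z + 1) < a z → b z ≤ lam (tw p) (a z - 1)
  · by_cases h2 : ∀ z < k, a z < 2 ^ p → (0 < z → a z < a (z - 1)) → lam (tw p) (a z) < b z
    · exact Or.inr ⟨h1, h2⟩
    · push Not at h2
      obtain ⟨z, hz, h3, h4, h5⟩ := h2
      exact Or.inl (move_up ha hb hz h3 h4 h5)
  · push Not at h1
    obtain ⟨z, hz, h3, h4⟩ := h1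
    exact Or.inl (move_down hk ha hb hz h3 h4)

theorem FS.tw_swap {k p : ℕ} (hk : 0 < k) {a b : ℕ → ℕ} (ha : Adm k (2 ^ p) a)
    (hb : Adm k (2 ^ p) b) (h : FS k (tw p) b a) : FS k (tw p) a b := by
  apply FS.reverse hk (tw_pos p) (fun z => by rw [tw_prod]; exact ha.le z)
    (fun z => by rw [tw_prod]; exact hb.le z)
  rw [tw_reverse]
  exact h

theorem FS_adm {k n : ℕ} (hk : 0 < k) (F : FSL k (tw n)) (m : ℕ) : ∀ a b : ℕ → ℕ,
    Adm k (2 ^ (n + 1)) a → Adm k (2 ^ (n + 1)) b → mu k (n + 1) a b = m →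
    FS k (tw (n + 1)) a b := by
  induction m using Nat.strong_induction_on with
  | _ m ih =>
    intro a b ha hb hm
    rcases move_or hk ha hb with ⟨a', ha', hmu, hF⟩ | ⟨h1, h2⟩
    · exact hF (ih _ (hm ▸ hmu) a' b ha' hb rfl)
    rcases move_or hk hb ha with ⟨b', hb', hmu, hF⟩ | ⟨h3, h4⟩
    · rw [mu_comm hb ha, hm] at hmu
      exact FS.tw_swap hk ha hb (hF (ih _ hmu b' a hb' ha rfl))
    rcases col hk F ha.anti hb.anti ha.le hb.le h1 h2 with h5 | h5
    · exact h5
    rcases col hk F hb.anti ha.anti hb.le ha.le h3 h4 with h6 | h6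
    · exact FS.tw_swap hk ha hb h6
    · exact (h5.excl h6).elim

/-- the first slice lemma for any `k` and all other sides equal to `2` -/
theorem FSL_tw {k : ℕ} (hk : 0 < k) : ∀ r, FSL k (tw r) := by
  intro r
  induction r with
  | zero => exact FSL_nil k
  | succ n F =>
    intro a b ha hb ha' hb'
    rw [tw_prod] at ha' hb'
    have adm : ∀ {f : ℕ → ℕ}, Antitone f → (∀ z, f z ≤ 2 ^ (n + 1)) →
        Adm k (2 ^ (n + 1)) (fun z => if z < k then f z else 0) := by
      intro f hf hf'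
      refine ⟨fun z z' hz => ?_, fun z => ?_, fun z hz => ?_⟩
      · have := hf hz
        split_ifs <;> omega
      · have := hf' z
        split_ifs <;> omega
      · rw [if_neg (by omega)]
    obtain ⟨l1, l2, hl, hF⟩ := FS_adm hk F _ _ _ (adm ha ha') (adm hb hb') rfl
    refine ⟨l1, l2, hl, ?_⟩
    have e : ∀ f : ℕ → ℕ, ∑ z ∈ range k, (if z < k then f z else 0) = ∑ z ∈ range k, f z :=
      fun f => sum_congr rfl (fun z hz => if_pos (mem_range.1 hz))
    have e2 : ∑ z ∈ range k, H (tw (n + 1)) (if z < k then a z else 0) (if z < k then b z else 0) =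
        ∑ z ∈ range k, H (tw (n + 1)) (a z) (b z) :=
      sum_congr rfl (fun z hz => by rw [if_pos (mem_range.1 hz), if_pos (mem_range.1 hz)])
    rw [e, e, e2] at hF
    exact hF

end DKWF
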