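import Mathlib

/-!
Numerical inequalities for the section of the bad column.
-/

namespace DKWF

/-- level `N - 2`, slices of the run -/
theorem sl1_run {N v h b : ℤ} (hv : 1 ≤ v) (hvN : 2 * v < N) (hb : b ≤ N - 1) (hh : h ≤ v)
    (hp : v * b ≤ N * h) : 0 ≤ (N - v) * h - v * b + v * (N - 2) - v * (N - 1 - v) := by
  obtain ⟨c, hc⟩ : ∃ c, b = N - c := ⟨N - b, by ring⟩
  obtain ⟨x, hx⟩ : ∃ x, h = v - x := ⟨v - h, by ring⟩
  subst hc hx
  have hc1 : 1 ≤ c := by linarith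
  have hx0 : 0 ≤ x := by linarith
  have h1 : N * x ≤ v * c := by linarith [mul_comm N v, mul_sub N v x, mul_sub v N c]
  have e : (N - v) * (v - x) - v * (N - c) + v * (N - 2) - v * (N - 1 - v) =
      (c - 1) * v - (N - v) * x := by ring
  rw [e]
  rcases eq_or_lt_of_le hx0 with h0 | h0
  · rw [← h0]
    have : 0 ≤ (c - 1) * v := mul_nonneg (by linarith) (by linarith)
    linarith
  · have h2 : N ≤ v * c := by nlinarith
    have h3 : (N - v) * (N * x) ≤ (N - v) * (v * c) := mul_le_mul_of_nonneg_left h1 (by linarith)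
    have h4 : 0 ≤ v * (v * c - N) := mul_nonneg (by linarith) (by linarith)
    have h5 : 0 ≤ N * ((c - 1) * v - (N - v) * x) := by linarith
    exact nonneg_of_mul_nonneg_right h5 (by linarith)

/-- level `N - 2`, slices after the run -/
theorem sl1_after {N V v h a b : ℤ} (hN : N = 2 * V) (hvV : v < V) (ha0 : 0 ≤ a) (ha : a < v)
    (hb : b + V + 2 ≤ N) (hp : a * b ≤ N * h) :
    0 ≤ (N - v) * h - v * b + v * (N - 2) - a * (N - 1 - v) := by
  obtain ⟨c, hc⟩ : ∃ c, b = N - c := ⟨N - b, by ring⟩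
  subst hc
  have hc1 : V + 2 ≤ c := by linarith
  have h1 : (N - v) * (a * (N - c)) ≤ (N - v) * (N * h) :=
    mul_le_mul_of_nonneg_left hp (by linarith)
  have h2 : 0 ≤ N * ((N - v) * h - v * (N - c) + v * (N - 2) - a * (N - 1 - v)) := by
    have e : (N - v) * (a * (N - c)) + N * (-(v * (N - c)) + v * (N - 2) - a * (N - 1 - v)) =
        N * (c - 2) * v - a * (c * (N - v) - N) := by ring
    have h3 : 0 ≤ c * (N - v) - N := by nlinarith
    have h4 : a * (c * (N - v) - N) ≤ (v - 1) * (c * (N - v) - N) :=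
      mul_le_mul_of_nonneg_right (by linarith) h3
    have h5 : N * (c - 2) * v - (v - 1) * (c * (N - v) - N) =
        N * (c - 1 - v) + c * (v * (v - 1)) := by ring
    have h6 : 0 ≤ N * (c - 1 - v) := mul_nonneg (by linarith) (by linarith)
    have h7 : 0 ≤ c * (v * (v - 1)) :=
      mul_nonneg (by linarith) (mul_nonneg (by linarith) (by linarith))
    linarith
  exact nonneg_of_mul_nonneg_right h2 (by linarith)

/-- level `N - 1 - Y`, slices after the run -/
theorem sl2_after {N V v h a b Y : ℤ} (hN : N = 2 * V) (hv : 1 ≤ v) (hvV : v < V)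
    (ha : a < v) (hY : Y + 1 ≤ V) (hb : b + V + 2 ≤ N) (hp : a * b ≤ N * h)
    (hq : 0 ≤ N * (V + 2 - Y) - v - N * v + 3 * v ^ 2) :
    -(2 * v ^ 2) ≤ N * (N * h - v * b) - a * (N * (N - Y) - v) + N * v * (N - 1 - Y) := by
  obtain ⟨c, hc⟩ : ∃ c, b = N - c := ⟨N - b, by ring⟩
  obtain ⟨w, hw⟩ : ∃ w, a = v - w := ⟨v - a, by ring⟩
  subst hc hw
  have hc1 : V + 2 ≤ c := by linarith
  have hw1 : 1 ≤ w := by linarith
  have h1 : N * ((v - w) * (N - c)) ≤ N * (N * h) := mul_le_mul_of_nonneg_left hp (by linarith)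
  have h2 : 0 ≤ (w - 1) * (N * (c - Y) - v) := by
    apply mul_nonneg (by linarith)
    have : N * 1 ≤ N * (c - Y) := mul_le_mul_of_nonneg_left (by linarith) (by linarith)
    linarith
  have h3 : N * (V + 2 - Y) ≤ N * (c - Y) := mul_le_mul_of_nonneg_left (by linarith) (by linarith)
  have e : N * ((v - w) * (N - c)) + N * (-(v * (N - c))) - (v - w) * (N * (N - Y) - v) +
      N * v * (N - 1 - Y) = (w - 1) * (N * (c - Y) - v) + N * (c - Y) - v + v ^ 2 - N * v := by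
    ring
  linarith

/-- the bound for `Y` gives the inequality for the slices after the run -/
theorem y_bound {N V v Y : ℤ} (hN : N = 2 * V) (hv : 1 ≤ v) (hvV : v < V)
    (h : 6 * Y ≤ 5 * V ∨ Y ≤ v) : 0 ≤ N * (V + 2 - Y) - v - N * v + 3 * v ^ 2 := by
  subst hN
  rcases h with h | h
  · have h1 : V * (6 * Y) ≤ V * (5 * V) := mul_le_mul_of_nonneg_left h (by linarith)
    have h2 : 0 ≤ (3 * v - V) ^ 2 := sq_nonneg _
    nlinarith
  · have h1 : V * Y ≤ V * v := mul_le_mul_of_nonneg_left h (by linarith)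
    nlinarith [sq_nonneg (3 * v - 2 * V)]

/-- the final inequality -/
theorem num_fin {N v i Y c1 c2 : ℤ} (hv : 1 ≤ v) (hvN : 2 * v < N) (hi : 1 ≤ i) (hY : 2 ≤ Y)
    (hc1 : c1 = (Y + 1) / 2) (hc2 : c2 = (Y + 2) / 2) :
    i * N * v + N * (N - v) * c1 + N * v * c2 ≤
      N * (N - v) * (i * (Y - 1)) + N ^ 2 + 3 * v ^ 2 := by
  have hNv : 0 ≤ N * (N - v) := mul_nonneg (by linarith) (by linarith)
  have h1 : 0 ≤ (i - 1) * (N * (N - v) * (Y - 1) - N * v) := by
    apply mul_nonneg (by linarith)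
    have h2 : N * (N - v) * 1 ≤ N * (N - v) * (Y - 1) :=
      mul_le_mul_of_nonneg_left (by linarith) hNv
    have h3 : 0 ≤ N * (N - 2 * v) := mul_nonneg (by linarith) (by linarith)
    linarith
  obtain ⟨k, hk⟩ : ∃ k, Y = 2 * k ∨ Y = 2 * k + 1 := ⟨Y / 2, by omega⟩
  have hk1 : 1 ≤ k := by omega
  have h4 : 0 ≤ N * ((N - 2 * v) * (k - 1)) :=
    mul_nonneg (by linarith) (mul_nonneg (by linarith) (by linarith))
  have h5 : 0 ≤ (2 * N - 3 * v) ^ 2 := sq_nonneg _
  have h6 : 0 ≤ v ^ 2 := sq_nonneg _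
  rcases hk with rfl | rfl
  · have e1 : c1 = k := by omega
    have e2 : c2 = k + 1 := by omega
    subst e1 e2
    linarith
  · have e1 : c1 = k + 1 := by omega
    have e2 : c2 = k + 1 := by omega
    subst e1 e2
    linarith

/-- the contradiction for `Y = 1` -/
theorem num_one {N v R DR BR M H1 H2 : ℤ} (hv : 1 ≤ v) (hvN : 2 * v < N)
    (hE1 : N * H1 < (N - 1) * R + N) (hE2 : N * H2 < (N - 2) * R + N)
    (hP1 : DR + 1 ≤ H1) (hP2 : DR + M * (N - 2) + 1 ≤ H2 + BR)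
    (hs : 0 ≤ (N - v) * DR - v * BR + v * (N - 2) * M - (N - 1 - v) * R) : False := by
  have a1 := mul_lt_mul_of_pos_left hE1 (show 0 < N - 2 * v by linarith)
  have a2 := mul_le_mul_of_nonneg_left hP1
    (show 0 ≤ N * (N - 2 * v) from mul_nonneg (by linarith) (by linarith))
  have a3 := mul_lt_mul_of_pos_left hE2 (show 0 < v by linarith)
  have a4 := mul_le_mul_of_nonneg_left hP2 (show 0 ≤ N * v from mul_nonneg (by linarith) (by linarith))
  have a5 := mul_nonneg (show 0 ≤ N by linarith) hs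
  linarith

/-- the contradiction for `2 ≤ Y` -/
theorem num_two {N v i Y c1 c2 R DR BR M H1 H2 m κ j : ℤ} (hv : 1 ≤ v) (hvN : 2 * v < N)
    (hi : 1 ≤ i) (hY : 2 ≤ Y) (hc1 : c1 = (Y + 1) / 2) (hc2 : c2 = (Y + 2) / 2)
    (hE1 : N * H1 < (N - Y) * R + N * c1) (hE2 : N * H2 < (N - 1 - Y) * R + N * c2)
    (hP1 : DR + i * (Y - 1) + 1 ≤ H1) (hP2 : DR + M * (N - 1 - Y) + 1 ≤ H2 + BR)
    (hκ : κ ≤ i) (hm : 2 * j + 3 ≤ m + κ)
    (hs : m * v ^ 2 + κ * (v ^ 2 - N * v) - j * (2 * v ^ 2) ≤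
      N ^ 2 * DR - N * v * BR - (N * (N - Y) - v) * R + N * v * (N - 1 - Y) * M) : False := by
  have a0 := num_fin hv hvN hi hY hc1 hc2
  have a1 := mul_lt_mul_of_pos_left hE1 (show 0 < N - v by linarith)
  have a2 := mul_le_mul_of_nonneg_left hP1
    (show 0 ≤ N * (N - v) from mul_nonneg (by linarith) (by linarith))
  have a3 := mul_lt_mul_of_pos_left hE2 (show 0 < v by linarith)
  have a4 := mul_le_mul_of_nonneg_left hP2 (show 0 ≤ N * v from mul_nonneg (by linarith) (by linarith))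
  have a5 := mul_le_mul_of_nonneg_left hκ (show 0 ≤ N * v from mul_nonneg (by linarith) (by linarith))
  have a6 := mul_le_mul_of_nonneg_left hm (sq_nonneg v)
  linarith

/-- the bound for `Y` -/
theorem y_small {N V v i Y R DR H1 m κ j : ℤ} (hN : N = 2 * V) (hv : 1 ≤ v) (hvV : v < V)
    (hi : 1 ≤ i) (hj : 0 ≤ j)
    (hE1 : N * H1 < (N - Y) * R + N * ((Y + 1) / 2))
    (hP1 : DR + i * (Y - 1) + 1 ≤ H1) (hκ : κ ≤ i) (hm : 2 * j + 3 ≤ m + κ)
    (hD : m * v ≤ DR) (hR : R ≤ (m + κ + j) * v) (hR0 : 0 ≤ R) : 6 * Y ≤ 5 * V ∨ Y ≤ v := by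
  by_contra hcon
  push Not at hcon
  obtain ⟨h1, h2⟩ := hcon
  have hV : 0 < V := by linarith
  have e1 : 2 * ((Y + 1) / 2) ≤ Y + 1 := by omega
  -- divide by V
  have b1 : 12 * (N * H1) < 12 * ((N - Y) * R) + 6 * (N * (Y + 1)) := by
    have := mul_le_mul_of_nonneg_left e1 (show 0 ≤ N by linarith)
    linarith
  have b2 : 12 * ((N - Y) * R) ≤ 14 * V * ((m + κ + j) * v) := by
    have c1 : 12 * (N - Y) * R ≤ 14 * V * R := mul_le_mul_of_nonneg_right (by linarith) hR0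
    have c2 : 14 * V * R ≤ 14 * V * ((m + κ + j) * v) :=
      mul_le_mul_of_nonneg_left hR (by linarith)
    linarith
  have b3 : 24 * V * (m * v + i * (Y - 1) + 1) ≤ 12 * (N * H1) := by
    have := mul_le_mul_of_nonneg_left (show m * v + i * (Y - 1) + 1 ≤ H1 by linarith)
      (show 0 ≤ 24 * V by linarith)
    rw [hN]
    linarith
  have b4 : V * (24 * (m * v + i * (Y - 1) + 1)) <
      V * (14 * ((m + κ + j) * v) + 12 * (Y + 1)) := by
    rw [hN] at b1 b2 b3
    linarith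
  have b5 := lt_of_mul_lt_mul_left b4 hV.le
  -- 24 m v + 24 i (Y-1) + 24 < 14 (m+κ+j) v + 12 (Y+1)
  have b6 : (24 * i - 12) * v ≤ (24 * i - 12) * (Y - 1) :=
    mul_le_mul_of_nonneg_left (by linarith) (by linarith)
  have b7 : 24 * κ * v ≤ 24 * i * v := by
    have := mul_le_mul_of_nonneg_right hκ (show 0 ≤ v by linarith)
    linarith
  have b8 : (2 * j + 3) * v ≤ (m + κ) * v := mul_le_mul_of_nonneg_right hm (by linarith)
  have b9 : 0 ≤ j * v := mul_nonneg hj (by linarith)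
  linarith

end DKWF
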