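import Pool.Agent.Lib.MP_f05b2f_co.L2.Kern

/-!
The other sections: the order with `k` first is good.
-/

namespace DKWF

open Finset

/-- a rectangle of full slices -/
theorem rect {ls : List ℕ} (h : Pos ls) {k : ℕ} (hk : 0 < k) {b : ℕ → ℕ} (hb : Antitone b) {y : ℕ}
    (hy : y ≤ k) : H (k :: ls) (y * ls.prod) (∑ z ∈ range k, b z) ≤ ∑ z ∈ range y, b z := by
  refine le_trans (le_of_eq ?_) (flat hk hb hy)
  rw [H_cons hk, H_cons hk]
  apply sum_congr rfl
  intro z _
  rw [List.prod_nil, mul_one, H_nil]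
  rcases Nat.lt_or_ge z y with h1 | h1
  · rw [if_pos (by omega)]
    apply H_full h
    obtain ⟨d, rfl⟩ := Nat.exists_eq_add_of_lt h1
    have : (z + d + 1) * ls.prod = z * ls.prod + d * ls.prod + ls.prod := by ring
    omega
  · rw [if_neg (by omega)]
    have : y * ls.prod ≤ z * ls.prod := Nat.mul_le_mul_right _ h1
    rw [Nat.sub_eq_zero_of_le this, H_zero_left]

/-- test at one level -/
theorem level_test {p k ζ : ℕ} {a b : ℕ → ℕ} (hk : 0 < k) (hζ : ζ ≤ 2 ^ p)
    (ha : ∀ z < k, a z ≤ 2 ^ p)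
    (h1 : ∑ z ∈ range k, H (tw p) ζ (a z) ≤ ∑ z ∈ range k, H (tw p) (a z) (b z))
    (h2 : ∑ z ∈ range k, H (tw p) ζ (a z) + ∑ z ∈ range k, b z ≤
      ∑ z ∈ range k, H (tw p) (a z) (b z) + k * ζ) :
    H (k :: tw p) (∑ z ∈ range k, a z) (∑ z ∈ range k, b z) ≤
      ∑ z ∈ range k, H (tw p) (a z) (b z) := by
  have h3 := kfirst (tw_pos p) (K := k) (S := ∑ z ∈ range k, a z) (B := ∑ z ∈ range k, b z)
    (β := ζ) hk (by rw [tw_prod]; exact sum_le_mul ha) (by rw [tw_prod]; exact hζ)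
  rw [tw_reverse] at h3
  have h4 := tw_sum_le (n := p) ζ a k
  refine h3.trans ?_
  omega

/-- all slices before `e` full -/
theorem other_low {p k e t1 : ℕ} {a b : ℕ → ℕ} (hk : 0 < k)
    (haN : ∀ z < k, a z ≤ 2 ^ (p + 1))
    (ha : ∀ z < e, a z = 2 ^ (p + 1)) (hb3 : ∀ z, e ≤ z → z < k → b z + 1 ≤ 2 ^ p)
    (hb1 : ∀ z < t1, 2 ^ (p + 1) ≤ b z + 2) (ht : k ≤ 2 * t1) (ht1 : t1 ≤ k) :
    H (k :: tw (p + 1)) (∑ z ∈ range k, a z) (∑ z ∈ range k, b z) ≤
      ∑ z ∈ range k, H (tw (p + 1)) (a z) (b z) := by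
  obtain ⟨V, hV⟩ : ∃ V, 2 ^ p = V := ⟨_, rfl⟩
  have hV0 : 0 < V := hV ▸ Nat.two_pow_pos p
  have hN : 2 ^ (p + 1) = 2 * V := by rw [pow_succ, hV]; ring
  have hB : k * (V - 1) ≤ ∑ z ∈ range k, b z := by
    obtain ⟨d, rfl⟩ := Nat.exists_eq_add_of_le ht1
    rw [sum_range_add]
    have h1 := sum_le_sum (fun z (hz : z ∈ range t1) => show 2 * (V - 1) ≤ b z by
      have := hb1 z (mem_range.1 hz)
      omega)
    rw [sum_const, card_range, smul_eq_mul] at h1
    have h2 : (t1 + d) * (V - 1) ≤ 2 * t1 * (V - 1) := Nat.mul_le_mul_right _ (by omega)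
    have h3 : t1 * (2 * (V - 1)) = 2 * t1 * (V - 1) := by ring
    omega
  have key : ∑ z ∈ range k, H (tw (p + 1)) (V - 1) (a z) + ∑ z ∈ range k, b z ≤
      ∑ z ∈ range k, H (tw (p + 1)) (a z) (b z) + k * (V - 1) := by
    have h1 : ∑ z ∈ range k, (H (tw (p + 1)) (V - 1) (a z) + b z) ≤
        ∑ z ∈ range k, (H (tw (p + 1)) (a z) (b z) + (V - 1)) := by
      apply sum_le_sum
      intro z hz
      rw [mem_range] at hz
      rcases Nat.lt_or_ge z e with h2 | h2
      · rw [ha z h2, tw_full' (by omega), tw_full]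
        omega
      · have h3 := hb3 z h2 hz
        have h4 := haN z hz
        rw [tw_comm (by omega) h4]
        have h5 := H_lip_right (tw (p + 1)) (a z) (b z) (V - 1 - b z)
        have e : b z + (V - 1 - b z) = V - 1 := by omega
        rw [e] at h5
        omega
    rw [sum_add_distrib, sum_add_distrib, sum_const, card_range, smul_eq_mul] at h1
    exact h1
  exact level_test (ζ := V - 1) hk (by omega) haN (by omega) key

theorem sum_ind_ge {k q : ℕ} (hq : q ≤ k) :
    ∑ z ∈ range k, (if q ≤ z then 1 else 0) = k - q := by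
  obtain ⟨d, rfl⟩ := Nat.exists_eq_add_of_le hq
  rw [sum_range_add]
  have h1 : ∑ z ∈ range q, (if q ≤ z then 1 else 0) = 0 :=
    sum_eq_zero (fun z hz => if_neg (by have := mem_range.1 hz; omega))
  have h2 : ∑ z ∈ range d, (if q ≤ q + z then 1 else 0) = d := by
    rw [sum_congr rfl (fun z _ => if_pos (by omega : q ≤ q + z))]
    simp
  rw [h1, h2]
  omega

theorem sum_ind_lt (k g : ℕ) :
    ∑ z ∈ range k, (if z < g then 1 else 0) = min g k := by
  induction k with
  | zero => simp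
  | succ k ih =>
    rw [sum_range_succ, ih]
    split_ifs <;> omega

/-- full and half slices, all before the empty ones -/
theorem other_high {p k p1 p2 q2 g : ℕ} {a b : ℕ → ℕ} (hk : 0 < k) (hp : 1 ≤ p) (hp12 : p1 ≤ p2)
    (hp2 : p2 ≤ q2) (hq2 : q2 ≤ k) (hb : Antitone b) (hbN : ∀ z, b z ≤ 2 ^ (p + 1))
    (ha1 : ∀ z < p1, a z = 2 ^ (p + 1)) (ha2 : ∀ z, p1 ≤ z → z < p2 → a z = 2 ^ p)
    (ha3 : ∀ z, p2 ≤ z → z < k → a z = 0) (hb1 : ∀ z < p2, 2 ^ (p + 1) ≤ b z + 2)
    (hb3 : ∀ z, q2 ≤ z → z < k → b z + 1 ≤ 2 ^ p)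
    (hg : p1 < p2 → g + q2 ≤ k ∧ ∀ z < k, g ≤ z → b z < 2 ^ (p + 1)) :
    H (k :: tw (p + 1)) (∑ z ∈ range k, a z) (∑ z ∈ range k, b z) ≤
      ∑ z ∈ range k, H (tw (p + 1)) (a z) (b z) := by
  obtain ⟨V, hV⟩ : ∃ V, 2 ^ p = V := ⟨_, rfl⟩
  have hV2 : 2 ≤ V := by
    rw [← hV]
    calc 2 = 2 ^ 1 := rfl
      _ ≤ 2 ^ p := Nat.pow_le_pow_right two_pos hp
  have hN : 2 ^ (p + 1) = 2 * V := by rw [pow_succ, hV]; ring
  rcases Nat.eq_or_lt_of_le hp12 with h12 | h12
  · -- rectangle
    subst h12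
    obtain ⟨d, hd⟩ := Nat.exists_eq_add_of_le (hp2.trans hq2)
    have f1 : ∑ z ∈ range k, a z = p1 * (tw (p + 1)).prod := by
      rw [hd, sum_range_add, tw_prod,
        sum_congr rfl (fun z hz => ha1 z (mem_range.1 hz)), sum_const, card_range, smul_eq_mul,
        sum_eq_zero (fun z hz => ha3 (p1 + z) (by omega) (by have := mem_range.1 hz; omega)),
        add_zero]
    have f2 : ∑ z ∈ range p1, b z ≤ ∑ z ∈ range k, H (tw (p + 1)) (a z) (b z) := by
      have g1 : ∑ z ∈ range p1, H (tw (p + 1)) (a z) (b z) = ∑ z ∈ range p1, b z :=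
        sum_congr rfl (fun z hz => by rw [ha1 z (mem_range.1 hz), tw_full])
      rw [← g1]
      exact sum_le_sum_of_subset (range_subset_range.2 (hp2.trans hq2))
    rw [f1]
    exact (rect (tw_pos (p + 1)) hk hb (hp2.trans hq2)).trans f2
  · obtain ⟨hg1, hg2⟩ := hg h12
    have haN : ∀ z < k, a z ≤ 2 ^ (p + 1) := by
      intro z hz
      rcases Nat.lt_or_ge z p1 with h1 | h1
      · exact (ha1 z h1).le
      rcases Nat.lt_or_ge z p2 with h2 | h2
      · rw [ha2 z h1 h2]; omega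
      · rw [ha3 z h2 hz]; omega
    have hVN : H (tw (p + 1)) V (2 * V) = V := by
      have := tw_full' (n := p + 1) (a := V) (by omega)
      rwa [hN] at this
    have hVN1 : H (tw (p + 1)) V (2 * V - 1) = V := by
      have := tw_pred (n := p + 1) (a := V) (by omega)
      rwa [hN] at this
    have hVN2 : H (tw (p + 1)) V (2 * V - 2) = V - 1 := by
      have := tw_half_pred2 p
      rwa [hN, hV] at this
    obtain ⟨ζ, hζ⟩ : ∃ ζ, ζ = if b (p2 - 1) ≤ 2 * V - 2 then 2 * V - 2 else 2 * V - 1 := ⟨_, rfl⟩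
    have hζ1 : 2 * V - 2 ≤ ζ ∧ ζ ≤ 2 * V - 1 := by rw [hζ]; split_ifs <;> omega
    have hζV : H (tw (p + 1)) ζ V = if b (p2 - 1) ≤ 2 * V - 2 then V - 1 else V := by
      rw [tw_comm (by omega) (by omega), hζ]
      split_ifs
      · exact hVN2
      · exact hVN1
    have hbl : ∀ z < p2, b (p2 - 1) ≤ b z := fun z hz => hb (by omega)
    have hbr : ∀ z, p2 ≤ z → b z ≤ b (p2 - 1) := fun z hz => hb (by omega)
    have h1 : ∑ z ∈ range k, H (tw (p + 1)) ζ (a z) ≤
        ∑ z ∈ range k, H (tw (p + 1)) (a z) (b z) := by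
      apply sum_le_sum
      intro z hz
      rw [mem_range] at hz
      rcases Nat.lt_or_ge z p1 with h1 | h1
      · rw [ha1 z h1, tw_full' (by omega), tw_full]
        have g1 := hbl z (by omega)
        have g2 := hb1 z (by omega)
        rw [hζ]
        split_ifs <;> omega
      rcases Nat.lt_or_ge z p2 with h2 | h2
      · rw [ha2 z h1 h2, hV, hζV]
        have g1 := hbl z h2
        have g2 := hb1 z h2
        have g3 := hbN z
        have g4 : b z = 2 * V ∨ b z = 2 * V - 1 ∨ b z = 2 * V - 2 := by omega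
        rcases g4 with g4 | g4 | g4
        · rw [g4, hVN]; split_ifs <;> omega
        · rw [g4, hVN1]; split_ifs <;> omega
        · rw [g4, hVN2]; split_ifs <;> omega
      · rw [ha3 z h2 hz, H_zero_right]
        exact Nat.zero_le _
    refine level_test (ζ := ζ) hk (by omega) haN h1 ?_
    have h2 : ∑ z ∈ range k, (H (tw (p + 1)) ζ (a z) + b z + (if q2 ≤ z then 1 else 0)) ≤
        ∑ z ∈ range k, (H (tw (p + 1)) (a z) (b z) + ζ + (if z < g then 1 else 0)) := by
      apply sum_le_sum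
      intro z hz
      rw [mem_range] at hz
      rcases Nat.lt_or_ge z p1 with h1 | h1
      · rw [ha1 z h1, tw_full' (by omega), tw_full, if_neg (show ¬ q2 ≤ z by omega)]
        omega
      rcases Nat.lt_or_ge z p2 with h2 | h2
      · rw [ha2 z h1 h2, hV, hζV, if_neg (show ¬ q2 ≤ z by omega)]
        have g1 := hbl z h2
        have g2 := hb1 z h2
        have g3 := hbN z
        have g5 : b z = 2 * V → z < g := by
          intro g6
          by_contra g7
          have := hg2 z hz (by omega)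
          omega
        have g4 : b z = 2 * V ∨ b z = 2 * V - 1 ∨ b z = 2 * V - 2 := by omega
        rcases g4 with g4 | g4 | g4
        · rw [if_pos (g5 g4), g4, hVN, hζ]; split_ifs <;> omega
        · rw [g4, hVN1, hζ]; split_ifs <;> omega
        · rw [g4, hVN2, hζ]; split_ifs <;> omega
      · rw [ha3 z h2 hz, H_zero_right, H_zero_left]
        have g1 := hbr z h2
        have g3 := hbN z
        by_cases g4 : q2 ≤ z
        · have := hb3 z g4 hz
          rw [if_pos g4]
          omega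
        · rw [if_neg g4]
          by_cases g5 : z < g
          · rw [if_pos g5, hζ]; split_ifs <;> omega
          · have := hg2 z hz (by omega)
            rw [if_neg g5, hζ]; split_ifs <;> omega
    rw [sum_add_distrib, sum_add_distrib, sum_add_distrib, sum_add_distrib, sum_const, card_range,
      smul_eq_mul, sum_ind_ge hq2, sum_ind_lt] at h2
    omega

end DKWF
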