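import Pool.Agent.Lib.MP_f05b2f_co.L2.Kern
import Pool.Agent.Lib.MP_f05b2f_co.L2.Num

/-!
The section containing the bad column: the order with `k` first is good.
-/

namespace DKWF

open Finset

/-- test with a constant level, all slices before `i` full -/
theorem test_level {p k i M B B1 R BR D : ℕ} {β : ℕ} (hk : 0 < k) (hkM : k = i + M)
    (hβ : β ≤ 2 ^ p) (hR : R ≤ M * 2 ^ p) (hB : B = B1 + BR)
    (h1 : H (tw p) β R + i * β ≤ B1 + D) (h2 : H (tw p) β R + BR ≤ D + M * β) :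
    H (k :: tw p) (i * 2 ^ p + R) B ≤ B1 + D := by
  have h3 := kfirst (tw_pos p) (K := k) (S := i * 2 ^ p + R) (B := B) (β := β) hk
    (by rw [tw_prod, hkM, Nat.add_mul]; omega) (by rw [tw_prod]; exact hβ)
  rw [tw_reverse, tw_period hβ] at h3
  refine h3.trans ?_
  have e : k * β = i * β + M * β := by rw [hkM, Nat.add_mul]
  rw [e, hB]
  omega

theorem sum_three (f : ℕ → ℤ) (m κ j : ℕ) : ∑ z ∈ range (m + κ + j), f z =
    ∑ z ∈ range m, f z + ∑ z ∈ range κ, f (m + z) + ∑ z ∈ range j, f (m + κ + z) := by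
  rw [sum_range_add, sum_range_add]

theorem sum_const_le {f : ℕ → ℤ} {c : ℤ} {n : ℕ} (h : ∀ z < n, c ≤ f z) :
    (n : ℤ) * c ≤ ∑ z ∈ range n, f z := by
  have := sum_le_sum (fun z (hz : z ∈ range n) => h z (mem_range.1 hz))
  rwa [sum_const, card_range, nsmul_eq_mul] at this

theorem sum_lin (h b a : ℕ → ℤ) (c1 c2 c3 c4 : ℤ) (n : ℕ) :
    ∑ z ∈ range n, (c1 * h z - c2 * b z + c3 - a z * c4) =
      c1 * ∑ z ∈ range n, h z - c2 * ∑ z ∈ range n, b z + n * c3 - (∑ z ∈ range n, a z) * c4 := by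
  rw [sum_sub_distrib, sum_add_distrib, sum_sub_distrib, ← mul_sum, ← mul_sum, ← sum_mul,
    sum_const, card_range, nsmul_eq_mul]

/-- the part after the full slices: some level passes both tests -/
theorem xstar_aux {p i m κ j v : ℕ} {a b : ℕ → ℕ} (hi : 1 ≤ i) (hκ : κ ≤ i)
    (hm : 2 * j + 3 ≤ m + κ) (hv : 1 ≤ v) (hvV : v < 2 ^ p)
    (ha2 : ∀ z < m + κ, a z = v) (ha3 : ∀ z, m + κ ≤ z → z < m + κ + j → a z < v)
    (hb1 : ∀ z < m, b z + 1 = 2 ^ (p + 1)) (hb2 : ∀ z < m + κ + j, b z + 1 ≤ 2 ^ (p + 1))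
    (hb3 : ∀ z, m + κ ≤ z → z < m + κ + j → b z + 2 ^ p + 2 ≤ 2 ^ (p + 1)) :
    ∃ β ≤ 2 ^ (p + 1),
      H (tw (p + 1)) β (∑ z ∈ range (m + κ + j), a z) + i * β ≤ i * (2 ^ (p + 1) - 1) +
        ∑ z ∈ range (m + κ + j), H (tw (p + 1)) (a z) (b z) ∧
      H (tw (p + 1)) β (∑ z ∈ range (m + κ + j), a z) + ∑ z ∈ range (m + κ + j), b z ≤
        ∑ z ∈ range (m + κ + j), H (tw (p + 1)) (a z) (b z) + (m + κ + j) * β := by
  obtain ⟨V, hV⟩ : ∃ V, 2 ^ p = V := ⟨_, rfl⟩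
  have hN : 2 ^ (p + 1) = 2 * V := by rw [pow_succ, hV]; ring
  obtain ⟨R, hR⟩ : ∃ R, ∑ z ∈ range (m + κ + j), a z = R := ⟨_, rfl⟩
  obtain ⟨B, hB⟩ : ∃ B, ∑ z ∈ range (m + κ + j), b z = B := ⟨_, rfl⟩
  obtain ⟨D, hD⟩ : ∃ D, ∑ z ∈ range (m + κ + j), H (tw (p + 1)) (a z) (b z) = D := ⟨_, rfl⟩
  -- values
  have hav : ∀ z < m + κ + j, a z ≤ v := by
    intro z hz
    rcases Nat.lt_or_ge z (m + κ) with h | h
    · exact (ha2 z h).le
    · exact (ha3 z h hz).le
  have hb2' : ∀ z < m + κ + j, b z ≤ 2 ^ (p + 1) := fun z hz => by have := hb2 z hz; omega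
  have hprop : ∀ z < m + κ + j, a z * b z ≤ 2 ^ (p + 1) * H (tw (p + 1)) (a z) (b z) := by
    intro z hz
    exact tw_prop (by have := hav z hz; omega) _
  have hval : ∀ z < m, H (tw (p + 1)) (a z) (b z) = v := by
    intro z hz
    have h1 := hb1 z hz
    have e : b z = 2 ^ (p + 1) - 1 := by omega
    rw [ha2 z (by omega), e, tw_pred (by omega)]
  have hRle : R ≤ (m + κ + j) * v := by rw [← hR]; exact sum_le_mul hav
  have hDge : m * v ≤ D := by
    rw [← hD, add_assoc, sum_range_add]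
    have : ∑ z ∈ range m, H (tw (p + 1)) (a z) (b z) = m * v := by
      rw [sum_congr rfl (fun z hz => hval z (mem_range.1 hz)), sum_const, card_range, smul_eq_mul]
    omega
  -- the first test at level zero
  have hex : ∃ y, H (tw (p + 1)) (2 ^ (p + 1) - 1 - y) R + i * (2 ^ (p + 1) - 1 - y) ≤
      i * (2 ^ (p + 1) - 1) + D := by
    refine ⟨2 ^ (p + 1) - 1, ?_⟩
    rw [Nat.sub_self, H_zero_left]
    simp
  classical
  obtain ⟨Y, hY, hYmin⟩ : ∃ Y, (H (tw (p + 1)) (2 ^ (p + 1) - 1 - Y) R +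
      i * (2 ^ (p + 1) - 1 - Y) ≤ i * (2 ^ (p + 1) - 1) + D) ∧
      ∀ y < Y, ¬ (H (tw (p + 1)) (2 ^ (p + 1) - 1 - y) R +
      i * (2 ^ (p + 1) - 1 - y) ≤ i * (2 ^ (p + 1) - 1) + D) :=
    ⟨Nat.find hex, Nat.find_spec hex, fun y hy => Nat.find_min hex hy⟩
  rw [hR, hB, hD]
  -- the first test at level V
  have hYV : Y + 1 ≤ V := by
    by_contra hcon
    apply hYmin (V - 1) (by omega)
    have e : 2 ^ (p + 1) - 1 - (V - 1) = V := by omega
    rw [e, ← hV, tw_half, hV, hN]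
    obtain ⟨U, hU⟩ : ∃ U, V = v + 1 + U := Nat.exists_eq_add_of_le (by omega)
    have e2 : 2 * V - 1 = V + (v + U) := by omega
    rw [e2, Nat.mul_add, Nat.mul_add]
    have h1 : κ * v ≤ i * v := Nat.mul_le_mul_right _ hκ
    have h2 : j * v + v ≤ (m + κ) * v := by
      have : (j + 1) * v ≤ (m + κ) * v := Nat.mul_le_mul_right _ (by omega)
      rwa [Nat.succ_mul] at this
    rw [Nat.add_mul] at hRle h2
    have h3 : (m + κ) * v = m * v + κ * v := Nat.add_mul _ _ _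
    omega
  refine ⟨2 ^ (p + 1) - 1 - Y, by omega, hY, ?_⟩
  by_contra hP2
  rw [not_le] at hP2
  have zN : ((2 ^ (p + 1) : ℕ) : ℤ) = 2 * (V : ℤ) := by rw [hN]; push_cast; ring
  -- integer forms of the sums
  obtain ⟨NZ, hNZ⟩ : ∃ NZ : ℤ, NZ = 2 * (V : ℤ) := ⟨_, rfl⟩
  have zav : ∀ z, m + κ ≤ z → z < m + κ + j → (a z : ℤ) < v := fun z h1 h2 => by
    exact_mod_cast ha3 z h1 h2
  have zprop : ∀ z < m + κ + j, (a z : ℤ) * b z ≤ NZ * (H (tw (p + 1)) (a z) (b z) : ℕ) := by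
    intro z hz
    have := hprop z hz
    rw [hNZ, ← zN]
    exact_mod_cast this
  have zb2 : ∀ z < m + κ + j, (b z : ℤ) ≤ NZ - 1 := by
    intro z hz
    have := hb2 z hz
    rw [hNZ, ← zN]
    omega
  have zb3 : ∀ z, m + κ ≤ z → z < m + κ + j → (b z : ℤ) + V + 2 ≤ NZ := by
    intro z h1 h2
    have := hb3 z h1 h2
    rw [hNZ, ← zN]
    omega
  have zb1 : ∀ z < m, (b z : ℤ) = NZ - 1 := by
    intro z hz
    have := hb1 z hz
    rw [hNZ, ← zN]
    omega
  have zv : (1 : ℤ) ≤ v := by exact_mod_cast hv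
  have zvV : (v : ℤ) < V := by exact_mod_cast (hV ▸ hvV)
  have sR : ∑ z ∈ range (m + κ + j), (a z : ℤ) = R := by exact_mod_cast hR
  have sB : ∑ z ∈ range (m + κ + j), (b z : ℤ) = B := by exact_mod_cast hB
  have sD : ∑ z ∈ range (m + κ + j), ((H (tw (p + 1)) (a z) (b z) : ℕ) : ℤ) = D := by
    exact_mod_cast hD
  have hYle : Y ≤ 2 ^ (p + 1) - 1 := by omega
  have zY : ((2 ^ (p + 1) - 1 - Y : ℕ) : ℤ) = NZ - 1 - Y := by
    rw [hNZ, ← zN]; omega
  have zP2 : (D : ℤ) + (m + κ + j) * (NZ - 1 - Y) + 1 ≤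
      (H (tw (p + 1)) (2 ^ (p + 1) - 1 - Y) R : ℕ) + (B : ℤ) := by
    rw [← zY]
    exact_mod_cast hP2
  have E1 := fun (c : ℕ) (hc : 1 ≤ c) (hcN : c ≤ 2 ^ (p + 1)) => lemE p hc hcN R
  rcases Nat.eq_zero_or_pos Y with hY0 | hY0
  · -- level N - 1
    subst hY0
    have h1 : H (tw (p + 1)) (2 ^ (p + 1) - 1) R ≤
        ∑ z ∈ range (m + κ + j), H (tw (p + 1)) (2 ^ (p + 1) - 1) (a z) := by
      rw [← hR]; exact tw_sum_le _ _ _
    have h2 : ∑ z ∈ range (m + κ + j), (H (tw (p + 1)) (2 ^ (p + 1) - 1) (a z) + b z) ≤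
        ∑ z ∈ range (m + κ + j), (H (tw (p + 1)) (a z) (b z) + (2 ^ (p + 1) - 1)) := by
      apply sum_le_sum
      intro z hz
      rw [mem_range] at hz
      have h3 := hav z hz
      have h4 := hb2 z hz
      rw [tw_comm (by omega) (by omega)]
      have h5 := H_lip_right (tw (p + 1)) (a z) (b z) (2 ^ (p + 1) - 1 - b z)
      have e : b z + (2 ^ (p + 1) - 1 - b z) = 2 ^ (p + 1) - 1 := by omega
      rw [e] at h5
      omega
    rw [sum_add_distrib, sum_add_distrib, sum_const, card_range, smul_eq_mul, hB, hD] at h2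
    simp only [Nat.sub_zero] at hP2
    omega
  · -- failure of the first test at level N - Y
    have hP1 := hYmin (Y - 1) (by omega)
    have e : 2 ^ (p + 1) - 1 - (Y - 1) = 2 ^ (p + 1) - Y := by omega
    rw [e, not_le] at hP1
    have zP1 : (D : ℤ) + i * (Y - 1) + 1 ≤ (H (tw (p + 1)) (2 ^ (p + 1) - Y) R : ℕ) := by
      have e1 : ((2 ^ (p + 1) - Y : ℕ) : ℤ) = NZ - Y := by rw [hNZ, ← zN]; omega
      have e2 : ((2 ^ (p + 1) - 1 : ℕ) : ℤ) = NZ - 1 := by rw [hNZ, ← zN]; omega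
      have h1 : ((i * (2 ^ (p + 1) - 1) + D : ℕ) : ℤ) <
          ((H (tw (p + 1)) (2 ^ (p + 1) - Y) R + i * (2 ^ (p + 1) - Y) : ℕ) : ℤ) := by
        exact_mod_cast hP1
      rw [Nat.cast_add, Nat.cast_add, Nat.cast_mul, Nat.cast_mul, e1, e2] at h1
      linarith
    have zE : ∀ c : ℕ, 1 ≤ c → c ≤ 2 ^ (p + 1) →
        NZ * (H (tw (p + 1)) (2 ^ (p + 1) - c) R : ℕ) < (NZ - c) * R + NZ * (((c : ℤ) + 1) / 2) := by
      intro c hc hcN
      have h1 := E1 c hc hcN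
      have h2 : ((2 ^ (p + 1) * H (tw (p + 1)) (2 ^ (p + 1) - c) R : ℕ) : ℤ) <
          (((2 ^ (p + 1) - c) * R + 2 ^ (p + 1) * ((c + 1) / 2) : ℕ) : ℤ) := by exact_mod_cast h1
      rw [Nat.cast_mul, Nat.cast_add, Nat.cast_mul, Nat.cast_mul, Nat.cast_sub hcN, zN,
        ← hNZ] at h2
      have e3 : (((c + 1) / 2 : ℕ) : ℤ) = ((c : ℤ) + 1) / 2 := by omega
      rw [e3] at h2
      exact h2
    rcases Nat.lt_or_ge 1 Y with hY2 | hY1
    · -- 2 ≤ Y
      have zE1 := zE Y (by omega) (by omega)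
      have zE2 := zE (Y + 1) (by omega) (by omega)
      have e4 : 2 ^ (p + 1) - (Y + 1) = 2 ^ (p + 1) - 1 - Y := by omega
      rw [e4] at zE2
      push_cast at zE2
      have e5 : NZ - ((Y : ℤ) + 1) = NZ - 1 - Y := by ring
      have e6 : (Y : ℤ) + 1 + 1 = Y + 2 := by ring
      rw [e5, e6] at zE2
      have zi : (1 : ℤ) ≤ i := by exact_mod_cast hi
      have zκ : (κ : ℤ) ≤ i := by exact_mod_cast hκ
      have zm : 2 * (j : ℤ) + 3 ≤ m + κ := by exact_mod_cast hm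
      have zYV : (Y : ℤ) + 1 ≤ V := by exact_mod_cast hYV
      have hys := y_small hNZ zv zvV zi (Int.natCast_nonneg j) zE1 zP1 zκ zm
        (by exact_mod_cast hDge) (by exact_mod_cast hRle) (Int.natCast_nonneg R)
      have hyb := y_bound hNZ zv zvV hys
      refine num_two zv (by linarith : 2 * (v : ℤ) < NZ) zi (by exact_mod_cast hY2 : (2 : ℤ) ≤ Y)
        rfl rfl zE1 zE2 zP1 zP2 zκ zm ?_
      -- the sum over the slices
      have hsum : ∑ z ∈ range (m + κ + j), (NZ * (NZ * (H (tw (p + 1)) (a z) (b z) : ℕ) - v * b z) -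
          a z * (NZ * (NZ - Y) - v) + NZ * v * (NZ - 1 - Y)) =
          NZ ^ 2 * D - NZ * v * B - (NZ * (NZ - Y) - v) * R + NZ * v * (NZ - 1 - Y) * (m + κ + j) := by
        rw [sum_add_distrib, sum_sub_distrib, ← mul_sum, sum_sub_distrib, ← mul_sum, ← mul_sum,
          ← sum_mul, sR, sB, sD, sum_const, card_range, nsmul_eq_mul]
        push_cast
        ring
      rw [← hsum, sum_three]
      have s1 : (m : ℤ) * ((v : ℤ) ^ 2) ≤ ∑ z ∈ range m,
          (NZ * (NZ * (H (tw (p + 1)) (a z) (b z) : ℕ) - v * b z) -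
          a z * (NZ * (NZ - Y) - v) + NZ * v * (NZ - 1 - Y)) := by
        apply sum_const_le
        intro z hz
        rw [hval z hz, ha2 z (by omega), zb1 z hz]
        apply le_of_eq
        ring
      have s2 : (κ : ℤ) * ((v : ℤ) ^ 2 - NZ * v) ≤ ∑ z ∈ range κ,
          (NZ * (NZ * (H (tw (p + 1)) (a (m + z)) (b (m + z)) : ℕ) - v * b (m + z)) -
          a (m + z) * (NZ * (NZ - Y) - v) + NZ * v * (NZ - 1 - Y)) := by
        apply sum_const_le
        intro z hz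
        have h1 := zprop (m + z) (by omega)
        rw [ha2 (m + z) (by omega)] at h1 ⊢
        have h2 : 0 ≤ NZ * (NZ * (H (tw (p + 1)) v (b (m + z)) : ℕ) - v * b (m + z)) :=
          mul_nonneg (by linarith) (by linarith)
        linarith
      have s3 : (j : ℤ) * (-(2 * (v : ℤ) ^ 2)) ≤ ∑ z ∈ range j,
          (NZ * (NZ * (H (tw (p + 1)) (a (m + κ + z)) (b (m + κ + z)) : ℕ) - v * b (m + κ + z)) -
          a (m + κ + z) * (NZ * (NZ - Y) - v) + NZ * v * (NZ - 1 - Y)) := by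
        apply sum_const_le
        intro z hz
        exact sl2_after hNZ zv zvV (zav _ (by omega) (by omega)) zYV
          (zb3 _ (by omega) (by omega)) (zprop _ (by omega)) hyb
      linarith
    · -- Y = 1
      have hY1' : Y = 1 := by omega
      subst hY1'
      have zE1 := zE 1 le_rfl (by omega)
      have zE2 := zE 2 (by omega) (by omega)
      have e4 : 2 ^ (p + 1) - 1 - 1 = 2 ^ (p + 1) - 2 := by omega
      rw [e4] at zP2
      push_cast at zE1 zE2 zP1 zP2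
      rw [mul_one] at zE1 zE2
      have e7 : NZ - 1 - 1 = NZ - 2 := by ring
      rw [e7] at zP2
      refine num_one zv (by linarith : 2 * (v : ℤ) < NZ) zE1 zE2 (by linarith) zP2 ?_
      have hsum : ∑ z ∈ range (m + κ + j), ((NZ - v) * (H (tw (p + 1)) (a z) (b z) : ℕ) - v * b z +
          v * (NZ - 2) - a z * (NZ - 1 - v)) =
          (NZ - v) * D - v * B + v * (NZ - 2) * (m + κ + j) - (NZ - 1 - v) * R := by
        rw [sum_lin (fun z => ((H (tw (p + 1)) (a z) (b z) : ℕ) : ℤ)) (fun z => (b z : ℤ))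
          (fun z => (a z : ℤ)), sR, sB, sD]
        push_cast
        ring
      rw [← hsum]
      apply sum_nonneg
      intro z hz
      rw [mem_range] at hz
      rcases Nat.lt_or_ge z (m + κ) with h1 | h1
      · have h2 := zprop z hz
        have h3 := tw_le_left (n := p + 1) (a := a z) (hb2' z hz)
        rw [ha2 z h1] at h2 h3 ⊢
        exact sl1_run zv (by linarith) (zb2 z hz) (by exact_mod_cast h3) h2
      · exact sl1_after hNZ zvV (Int.natCast_nonneg _) (zav z h1 hz) (zb3 z h1 hz) (zprop z hz)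

/-- the section of the bad column -/
theorem xstar {p k i t1 e v : ℕ} {a b : ℕ → ℕ} (hi : 1 ≤ i) (hit : i ≤ t1) (hte : t1 ≤ e)
    (hek : e ≤ k) (hκ : e ≤ t1 + i) (hm : i + (2 * (k - e) + 3) ≤ e) (hv : 1 ≤ v)
    (hvV : v < 2 ^ p) (ha1 : ∀ z < i, a z = 2 ^ (p + 1)) (ha2 : ∀ z, i ≤ z → z < e → a z = v)
    (ha3 : ∀ z, e ≤ z → z < k → a z < v) (hb1 : ∀ z < t1, 2 ^ (p + 1) ≤ b z + 1)
    (hb2 : ∀ z, i ≤ z → z < k → b z < 2 ^ (p + 1))
    (hb3 : ∀ z, e ≤ z → z < k → b z + 2 ^ p + 2 ≤ 2 ^ (p + 1)) :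
    H (k :: tw (p + 1)) (∑ z ∈ range k, a z) (∑ z ∈ range k, b z) ≤
      ∑ z ∈ range k, H (tw (p + 1)) (a z) (b z) := by
  obtain ⟨m, rfl⟩ := Nat.exists_eq_add_of_le hit
  obtain ⟨κ, rfl⟩ := Nat.exists_eq_add_of_le hte
  obtain ⟨j, rfl⟩ := Nat.exists_eq_add_of_le hek
  have e1 : i + m + κ + j - (i + m + κ) = j := by omega
  rw [e1] at hm
  have e2 : i + m + κ + j = i + (m + κ + j) := by ring
  have g : ∀ f : ℕ → ℕ, ∑ z ∈ range (i + (m + κ + j)), f z =
      ∑ z ∈ range i, f z + ∑ z ∈ range (m + κ + j), f (i + z) := fun f => sum_range_add f _ _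
  rw [e2, g a, g b, g (fun z => H (tw (p + 1)) (a z) (b z))]
  have f1 : ∑ z ∈ range i, a z = i * 2 ^ (p + 1) := by
    rw [sum_congr rfl (fun z hz => ha1 z (mem_range.1 hz)), sum_const, card_range, smul_eq_mul]
  have f2 : ∑ z ∈ range i, H (tw (p + 1)) (a z) (b z) = ∑ z ∈ range i, b z := by
    apply sum_congr rfl
    intro z hz
    rw [ha1 z (mem_range.1 hz), tw_full]
  have f3 : i * (2 ^ (p + 1) - 1) ≤ ∑ z ∈ range i, b z := by
    have := sum_le_sum (fun z (hz : z ∈ range i) => show 2 ^ (p + 1) - 1 ≤ b z by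
      have := hb1 z (by have := mem_range.1 hz; omega)
      omega)
    rwa [sum_const, card_range, smul_eq_mul] at this
  obtain ⟨β, hβ, h1, h2⟩ := xstar_aux (a := fun z => a (i + z)) (b := fun z => b (i + z))
    (p := p) (i := i) (m := m) (κ := κ) (j := j) (v := v) hi (by omega) (by omega) hv hvV
    (fun z hz => ha2 (i + z) (by omega) (by omega))
    (fun z h1 h2 => ha3 (i + z) (by omega) (by omega))
    (fun z hz => by
      have h1 := hb1 (i + z) (by omega)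
      have h2 := hb2 (i + z) (by omega) (by omega)
      omega)
    (fun z hz => by
      have h2 := hb2 (i + z) (by omega) (by omega)
      omega)
    (fun z h1 h2 => hb3 (i + z) (by omega) (by omega))
  rw [f1, f2]
  refine test_level (β := β) (M := m + κ + j) (BR := ∑ z ∈ range (m + κ + j), b (i + z))
    (by omega) rfl hβ ?_ rfl (by omega) h2
  apply sum_le_mul
  intro z hz
  rcases Nat.lt_or_ge z (m + κ) with h3 | h3
  · rw [ha2 (i + z) (by omega) (by omega)]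
    have : 2 ^ (p + 1) = 2 * 2 ^ p := by rw [pow_succ]; ring
    omega
  · have := ha3 (i + z) (by omega) (by omega)
    have : 2 ^ (p + 1) = 2 * 2 ^ p := by rw [pow_succ]; ring
    omega

end DKWF
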