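import Pool.Agent.Lib.MP_f05b2f_co.L2.Cnt
import Pool.Agent.Lib.MP_f05b2f_co.L2.XStar
import Pool.Agent.Lib.MP_f05b2f_co.L2.Other

/-!
All sections at one level are good for `k` first.
-/

namespace DKWF

open Finset

theorem sec_rows {W y c ρ' ρs : ℕ} (hW : 0 < W) (hρ' : ρ' < W) (hρs : ρs < W) :
    (W * c + ρs < y → c ≤ (y + (W - 1 - ρ')) / W) ∧
    (W * c + ρs < y → ρ' ≤ ρs → c + 1 ≤ (y + (W - 1 - ρ')) / W) ∧
    (y ≤ W * c + ρs → (y + (W - 1 - ρ')) / W ≤ c + 1) ∧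
    (y ≤ W * c + ρs → ρs ≤ ρ' → (y + (W - 1 - ρ')) / W ≤ c) := by
  refine ⟨?_, ?_, ?_, ?_⟩
  · intro h
    rw [Nat.le_div_iff_mul_le hW, mul_comm]
    omega
  · intro h h1
    rw [Nat.le_div_iff_mul_le hW, mul_comm, Nat.mul_add]
    omega
  · intro h
    rw [Nat.div_le_iff_le_mul_add_pred hW, Nat.mul_add]
    omega
  · intro h h1
    rw [Nat.div_le_iff_le_mul_add_pred hW]
    omega

/-- all the sections at the level `J` are good -/
theorem sections {k J M i t1 e q2 g vs ρs h : ℕ} {a b : ℕ → ℕ} (hk : 0 < k) (ha : Antitone a)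
    (hb : Antitone b) (hbN : ∀ z, b z ≤ 2 ^ J * 2 ^ (M + 1)) (hM : 1 ≤ M) (hρs : ρs < 2 ^ J)
    (hi : 1 ≤ i) (hit : i ≤ t1) (htq : t1 ≤ q2) (hqe : q2 ≤ e) (hek : e ≤ k) (hκ : e ≤ t1 + i)
    (hm : i + (2 * (k - e) + 3) ≤ e) (hkt : k ≤ 2 * t1) (hv1 : 1 ≤ vs) (hvV : vs < 2 ^ M)
    (hE : ∀ z < i, ∃ y < 2 ^ J, a z = (lam (tw J) y + 1) * 2 ^ (M + 1) ∨
      (a z = lam (tw J) y * 2 ^ (M + 1) + 2 ^ M ∧ ρs < y))
    (hai : ∀ z < i, lam (tw J) ρs * 2 ^ (M + 1) + vs < a z)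
    (ha2 : ∀ z, i ≤ z → z < e → a z = lam (tw J) ρs * 2 ^ (M + 1) + vs)
    (ha3 : ∀ z, e ≤ z → z < k → a z < lam (tw J) ρs * 2 ^ (M + 1) + vs)
    (hh : 2 ^ J * (2 ^ (M + 1) - 2) + ρs < h) (hb1 : ∀ z < t1, h ≤ b z)
    (hb3 : ∀ z, q2 ≤ z → z < k → b z ≤ 2 ^ J * (2 ^ M - 2) + ρs)
    (hg : ∀ z < k, g ≤ z → b z ≤ 2 ^ J * (2 ^ (M + 1) - 1) + ρs) (hgi : g ≤ i)
    (hgk : g + q2 ≤ k) {ρ' : ℕ} (hρ' : ρ' < 2 ^ J) :
    H (k :: tw (M + 1))
      (∑ z ∈ range k, min (a z - lam (tw J) ρ' * 2 ^ (M + 1)) (2 ^ (M + 1)))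
      (∑ z ∈ range k, (b z + (2 ^ J - 1 - ρ')) / 2 ^ J) ≤
      ∑ z ∈ range k, H (tw (M + 1)) (min (a z - lam (tw J) ρ' * 2 ^ (M + 1)) (2 ^ (M + 1)))
        ((b z + (2 ^ J - 1 - ρ')) / 2 ^ J) := by
  obtain ⟨W, hW⟩ : ∃ W, 2 ^ J = W := ⟨_, rfl⟩
  have hW0 : 0 < W := hW ▸ Nat.two_pow_pos J
  obtain ⟨V, hV⟩ : ∃ V, 2 ^ M = V := ⟨_, rfl⟩
  have hV2 : 2 ≤ V := by
    rw [← hV]
    calc 2 = 2 ^ 1 := rfl
      _ ≤ 2 ^ M := Nat.pow_le_pow_right two_pos hM
  obtain ⟨N, hNe⟩ : ∃ N, 2 ^ (M + 1) = N := ⟨_, rfl⟩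
  have hN : N = 2 * V := by rw [← hNe, pow_succ, hV]; ring
  rw [hW] at hρs hρ' hE hh hb3 hg hbN ⊢
  rw [hV] at hvV hE hb3
  rw [hNe] at hE hai ha2 ha3 hh hg hbN ⊢
  obtain ⟨X, hX⟩ : ∃ X, lam (tw J) ρs = X := ⟨_, rfl⟩
  obtain ⟨X', hX'⟩ : ∃ X', lam (tw J) ρ' = X' := ⟨_, rfl⟩
  rw [hX] at hai ha2 ha3
  rw [hX']
  have hinj : X' = X → ρ' = ρs := by
    intro h1
    apply lam_inj (tw_pos J) (by rw [tw_prod, hW]; exact hρ') (by rw [tw_prod, hW]; exact hρs)
    rw [hX, hX', h1]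
  -- rows
  have aβ : Antitone (fun z => (b z + (W - 1 - ρ')) / W) := row_anti W ρ' hb
  have aα : Antitone (fun z => min (a z - X' * N) N) := clip_anti N X' ha
  have β1 : ∀ z < t1, N ≤ (b z + (W - 1 - ρ')) / W + 2 ∧
      (ρ' ≤ ρs → N ≤ (b z + (W - 1 - ρ')) / W + 1) := by
    intro z hz
    have h1 := hb1 z hz
    obtain ⟨r1, r2, -, -⟩ := sec_rows (y := b z) (c := N - 2) hW0 hρ' hρs
    have h2 := r1 (by omega)
    refine ⟨by omega, fun h3 => ?_⟩
    have h4 := r2 (by omega) h3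
    omega
  have β3 : ∀ z, q2 ≤ z → z < k → (b z + (W - 1 - ρ')) / W + 1 ≤ V ∧
      (ρs ≤ ρ' → (b z + (W - 1 - ρ')) / W + 2 ≤ V) := by
    intro z h1 h2
    have h3 := hb3 z h1 h2
    obtain ⟨-, -, r3, r4⟩ := sec_rows (y := b z) (c := V - 2) hW0 hρ' hρs
    have h4 := r3 h3
    refine ⟨by omega, fun h5 => ?_⟩
    have h6 := r4 h3 h5
    omega
  have β2 : ρs ≤ ρ' → ∀ z < k, g ≤ z → (b z + (W - 1 - ρ')) / W < N := by
    intro h1 z h2 h3
    have h4 := hg z h2 h3
    obtain ⟨-, -, -, r4⟩ := sec_rows (y := b z) (c := N - 1) hW0 hρ' hρs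
    have h5 := r4 h4 h1
    omega
  have βN : ∀ z, (b z + (W - 1 - ρ')) / W ≤ N := fun z =>
    row_le hW0 (hbN z)
  rw [← hNe]
  rcases lt_trichotomy X' X with h1 | h1 | h1
  · -- below
    refine other_low (e := e) (t1 := t1) hk (fun z _ => min_le_right _ _) (fun z hz => ?_)
      (fun z h2 h3 => ?_) (fun z hz => ?_) hkt (by omega)
    · rw [hNe]
      have h2 : X * N ≤ a z := by
        rcases Nat.lt_or_ge z i with h3 | h3
        · have := hai z h3; omega
        · have := ha2 z h3 hz; omega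
      have h3 : (X' + 1) * N ≤ X * N := Nat.mul_le_mul_right _ h1
      rw [Nat.succ_mul] at h3
      omega
    · rw [hV]
      exact (β3 z (by omega) h3).1
    · rw [hNe]
      exact (β1 z hz).1
  · -- the section of the bad column
    have hρρ := hinj h1
    subst h1
    refine xstar (i := i) (t1 := t1) (e := e) (v := vs) hi hit (by omega) hek hκ hm hv1
      (by rw [hV]; exact hvV) (fun z hz => ?_) (fun z h2 h3 => ?_) (fun z h2 h3 => ?_)
      (fun z hz => ?_) (fun z h2 h3 => ?_) (fun z h2 h3 => ?_)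
    · rw [hNe]
      obtain ⟨y, hy, h2 | h2⟩ := hE z hz
      · have h3 := hai z hz
        have h4 : X' ≤ lam (tw J) y := by
          by_contra hcon
          have h5 : (lam (tw J) y + 1) * N ≤ X' * N := Nat.mul_le_mul_right _ (not_le.1 hcon)
          omega
        have h5 : (X' + 1) * N ≤ (lam (tw J) y + 1) * N := Nat.mul_le_mul_right _ (by omega)
        rw [Nat.succ_mul] at h5
        omega
      · have h3 := hai z hz
        have h4 : X' ≤ lam (tw J) y := by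
          by_contra hcon
          have h5 : (lam (tw J) y + 1) * N ≤ X' * N := Nat.mul_le_mul_right _ (not_le.1 hcon)
          rw [Nat.succ_mul] at h5
          omega
        have h6 : lam (tw J) y ≠ X' := by
          intro h7
          have h8 : y = ρs := lam_inj (tw_pos J) (by rw [tw_prod, hW]; exact hy)
            (by rw [tw_prod, hW]; exact hρs) (by rw [h7, hX])
          omega
        have h5 : (X' + 1) * N ≤ lam (tw J) y * N := Nat.mul_le_mul_right _ (by omega)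
        rw [Nat.succ_mul] at h5
        omega
    · rw [hNe, ha2 z h2 h3]
      omega
    · have := ha3 z h2 h3
      rw [hNe]
      omega
    · rw [hNe]
      exact (β1 z hz).2 hρρ.le
    · rw [hNe]
      exact β2 hρρ.ge z h3 (by omega)
    · rw [hNe, hV]
      have := (β3 z (by omega) h3).2 hρρ.ge
      omega
  · -- above
    have hα0 : ∀ z, i ≤ z → z < k → min (a z - X' * N) N = 0 := by
      intro z h2 h3
      have h4 : a z ≤ X * N + vs := by
        rcases Nat.lt_or_ge z e with h5 | h5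
        · exact (ha2 z h2 h5).le
        · exact (ha3 z h5 h3).le
      have h5 : (X + 1) * N ≤ X' * N := Nat.mul_le_mul_right _ h1
      rw [Nat.succ_mul] at h5
      omega
    have hαv : ∀ z < i, min (a z - X' * N) N = 0 ∨ min (a z - X' * N) N = N ∨
        (min (a z - X' * N) N = V ∧ ρs ≤ ρ') := by
      intro z hz
      obtain ⟨y, hy, h2 | ⟨h2, h2'⟩⟩ := hE z hz
      · rcases Nat.lt_or_ge (lam (tw J) y) X' with h3 | h3
        · left
          have h5 : (lam (tw J) y + 1) * N ≤ X' * N := Nat.mul_le_mul_right _ h3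
          omega
        · right; left
          have h5 : (X' + 1) * N ≤ (lam (tw J) y + 1) * N := Nat.mul_le_mul_right _ (by omega)
          rw [Nat.succ_mul] at h5
          omega
      · rcases lt_trichotomy (lam (tw J) y) X' with h3 | h3 | h3
        · left
          have h5 : (lam (tw J) y + 1) * N ≤ X' * N := Nat.mul_le_mul_right _ h3
          rw [Nat.succ_mul] at h5
          omega
        · right; right
          have h4 : y = ρ' := lam_inj (tw_pos J) (by rw [tw_prod, hW]; exact hy)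
            (by rw [tw_prod, hW]; exact hρ') (by rw [h3, hX'])
          rw [h2, h3]
          exact ⟨by omega, by omega⟩
        · right; left
          have h5 : (X' + 1) * N ≤ lam (tw J) y * N := Nat.mul_le_mul_right _ h3
          rw [Nat.succ_mul] at h5
          omega
    obtain ⟨p1, hp1⟩ : ∃ p, cnt k (fun z => min (a z - X' * N) N) V = p := ⟨_, rfl⟩
    obtain ⟨p2, hp2⟩ : ∃ p, cnt k (fun z => min (a z - X' * N) N) 0 = p := ⟨_, rfl⟩
    have hp12 : p1 ≤ p2 := by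
      rw [← hp1, ← hp2]; exact cnt_anti aα (Nat.zero_le _)
    have hp2i : p2 ≤ i := by
      rw [← hp2]
      exact cnt_le_of aα (fun z h2 h3 => (hα0 z h3 h2).le)
    refine other_high (p1 := p1) (p2 := p2) (q2 := q2) (g := g) hk hM hp12 (by omega) (by omega)
      aβ (fun z => by rw [hNe]; exact βN z) (fun z hz => ?_) (fun z h2 h3 => ?_)
      (fun z h2 h3 => ?_) (fun z hz => ?_) (fun z h2 h3 => ?_) ?_
    · show min (a z - X' * 2 ^ (M + 1)) (2 ^ (M + 1)) = 2 ^ (M + 1)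
      rw [hNe]
      have h2 : V < min (a z - X' * N) N :=
        cnt_pos (k := k) aα (z := z) (by rw [hp1]; exact hz)
      rcases hαv z (by omega) with h3 | h3 | h3 <;> omega
    · show min (a z - X' * 2 ^ (M + 1)) (2 ^ (M + 1)) = 2 ^ M
      rw [hNe, hV]
      have h4 : 0 < min (a z - X' * N) N :=
        cnt_pos (k := k) aα (z := z) (by rw [hp2]; exact h3)
      have h5 : min (a z - X' * N) N ≤ V :=
        cnt_neg (k := k) aα (z := z) (by omega) (by rw [hp1]; exact h2)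
      rcases hαv z (by omega) with h6 | h6 | h6 <;> omega
    · show min (a z - X' * 2 ^ (M + 1)) (2 ^ (M + 1)) = 0
      rw [hNe]
      have h5 : min (a z - X' * N) N ≤ 0 :=
        cnt_neg (k := k) aα (z := z) h3 (by rw [hp2]; exact h2)
      omega
    · show 2 ^ (M + 1) ≤ (b z + (W - 1 - ρ')) / W + 2
      rw [hNe]
      exact (β1 z (by omega)).1
    · show (b z + (W - 1 - ρ')) / W + 1 ≤ 2 ^ M
      rw [hV]
      exact (β3 z h2 h3).1
    · intro h2
      refine ⟨hgk, fun z h3 h4 => ?_⟩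
      show (b z + (W - 1 - ρ')) / W < 2 ^ (M + 1)
      rw [hNe]
      have h5 : 0 < min (a p1 - X' * N) N :=
        cnt_pos (k := k) aα (z := p1) (by rw [hp2]; exact h2)
      have h6 : min (a p1 - X' * N) N ≤ V :=
        cnt_neg (k := k) aα (z := p1) (by omega) (by rw [hp1])
      rcases hαv p1 (by omega) with h7 | h7 | h7
      · omega
      · omega
      · exact β2 h7.2 z h3 h4

end DKWF
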